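import Pool.Agent.Lib_helper65.RBO.P5

/-!
# The ratio `1 : 3`, symmetric form
-/

namespace Pool.Agent.Lib_helper65.RBO

open Filter Topology
open Pool.Agent.Lib_helper65.RB

/-- The double power series with coefficients `c` at `(s, t)`. -/
noncomputable def dser (c : ℕ → ℕ → ℝ) (s t : ℝ) : ℝ :=
  ∑' p : ℕ × ℕ, c p.1 p.2 * s ^ p.1 * t ^ p.2

/-- The graph of the double power series, restricted to the closed square `|s|, |t| ≤ ε/2`. -/
def graphSer (ε : ℝ) (c : ℕ → ℕ → ℝ) : Set (Fin 3 → ℝ) :=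
  {p | |p 0| ≤ ε / 2 ∧ |p 1| ≤ ε / 2 ∧ p 2 = dser c (p 0) (p 1)}

theorem main5_sym (hs : SeriesSt) : ∃ (n : ℕ) (ε : ℝ) (c : ℕ → ℕ → ℝ), 0 < ε ∧ ε < 1 ∧
    Summable (fun p : ℕ × ℕ => |c p.1 p.2| * ε ^ (p.1 + p.2)) ∧ c 0 0 = 1 ∧
    (∀ u v : ℝ, |u - 2| ≤ ε / 8 → |v - 2| ≤ ε / 8 →
      u * dser c (u - 2) (v - 2) = v * dser c (v / u - 1) (1 / u + 1 / v - 1)) ∧
    ∀ k l : ℕ, max k l + 1 = 3 * (min k l + 1) → ∀ x : ℕ → ℝ, (∀ i ≤ max k l, 0 < x i) →
      (∀ j, x (j + max k l + 1) = 1 / x (j + max k l - k) + 1 / x (j + max k l - l)) →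
      (∀ i, n * (min k l + 1) ≤ i → |x i * x (i + (min k l + 1)) - 2| ≤ ε / 2) ∧
      ((fun i : Fin (max k l + 1) => x i) ∈ Basin k l ↔
        ∀ i, n * (min k l + 1) ≤ i → i < (n + 1) * (min k l + 1) →
          x i * dser c (x i * x (i + (min k l + 1)) - 2)
            (x (i + (min k l + 1)) * x (i + 2 * (min k l + 1)) - 2) = √2) := by
  obtain ⟨n, ε, c, h1, h2, h3, h4, h5, h6⟩ := main5_of hs
  refine ⟨n, ε, c, h1, h2, h3, h4, h5, ?_⟩
  intro k l hkl x hx hr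
  unfold Basin
  have hcase : (k = min k l ∧ l = max k l) ∨ (k = max k l ∧ l = min k l) := by
    rcases le_total k l with h | h
    · left; rw [max_eq_right h, min_eq_left h]; exact ⟨rfl, rfl⟩
    · right; rw [max_eq_left h, min_eq_right h]; exact ⟨rfl, rfl⟩
  generalize max k l = m at *
  generalize min k l = d at *
  have hr' : ∀ j, x (j + m + 1) = 1 / x (j + m - d) + 1 / x j := by
    intro j
    have e : j + m - m = j := by omega
    rcases hcase with ⟨hk, hl⟩ | ⟨hk, hl⟩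
    · rw [hr j, hk, hl, e]
    · rw [hr j, hk, hl, e, add_comm]
  have hB : BasinM k l m = BasinM d m m := by
    rcases hcase with ⟨hk, hl⟩ | ⟨hk, hl⟩
    · rw [hk, hl]
    · rw [hk, hl, BasinM_symm]
  have h := h6 d m hkl x (fun i hi => hx i (by omega)) hr'
  rw [hB]
  exact h

end Pool.Agent.Lib_helper65.RBO
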