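import Pool.Agent.Lib_helper65.RBO.Lim

/-!
# Block LIM
-/

namespace Pool.Agent.Lib_helper65.RBO

open Filter Topology
open Pool.Agent.Lib_helper65.RB

/-- Uniformity over finitely many indices. -/
theorem unif (F G : ℝ → ℕ → ℝ) (hG : ∀ t, 0 < t → ∀ m, 0 < G t m) (P : ℕ → Prop) (b : ℕ)
    (h : ∀ m < b, (P m → ∃ r r' : ℝ, 0 < r ∧ r < r' ∧
        Tendsto (fun t => F t m / t) (𝓝[>] 0) (𝓝 r) ∧
        Tendsto (fun t => G t m / t) (𝓝[>] 0) (𝓝 r')) ∧
      (¬ P m → ∃ n C : ℝ, 0 < n ∧ 0 < C ∧ ∀ t, 0 < t → t < 1 →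
        |F t m - n| ≤ C * t ∧ |G t m - n| ≤ C * t)) :
    ∃ ω C K : ℝ, 0 < ω ∧ ω < 1 ∧ 0 < C ∧ 0 < K ∧ ∀ᶠ t in 𝓝[>] (0 : ℝ), ∀ m < b,
        (P m → F t m ≤ (1 - ω) * G t m ∧ t ≤ K * G t m) ∧
        (¬ P m → F t m ≤ (1 + C * t) * G t m ∧ 1 ≤ K * G t m) := by
  induction b with
  | zero =>
    exact ⟨1 / 2, 1, 1, by norm_num, by norm_num, one_pos, one_pos,
      Eventually.of_forall fun t m hm => by omega⟩
  | succ b ih =>
    obtain ⟨ω, C, K, hω, hω1, hC, hK, hev⟩ := ih (fun m hm => h m (by omega))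
    obtain ⟨h1, h2⟩ := h b (by omega)
    by_cases hP : P b
    · obtain ⟨r, r', hr, hrr, hF, hGt⟩ := h1 hP
      have hr' : 0 < r' := hr.trans hrr
      -- ratio
      obtain ⟨ω', hω', hω'1, hlt⟩ : ∃ ω' : ℝ, 0 < ω' ∧ ω' < 1 ∧ r < (1 - ω') * r' := by
        refine ⟨(1 - r / r') / 2, ?_, ?_, ?_⟩
        · have : r / r' < 1 := by rw [div_lt_one hr']; exact hrr
          linarith
        · have : 0 < r / r' := by positivity
          linarith
        · have : (1 - (1 - r / r') / 2) * r' = (r + r') / 2 := by field_simp; ring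
          rw [this]; linarith
      have e1 : ∀ᶠ t in 𝓝[>] (0 : ℝ), F t b / t < (1 - ω') * (G t b / t) :=
        hF.eventually_lt (hGt.const_mul (1 - ω')) hlt
      have e2 : ∀ᶠ t in 𝓝[>] (0 : ℝ), r' / 2 < G t b / t :=
        hGt.eventually_const_lt (by linarith)
      refine ⟨min ω ω', C, max K (2 / r'), lt_min hω hω', lt_of_le_of_lt (min_le_left _ _) hω1, hC,
        lt_max_of_lt_left hK, ?_⟩
      filter_upwards [hev, e1, e2, self_mem_nhdsWithin] with t k0 k1 k2 ht m hm
      have ht0 : (0 : ℝ) < t := ht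
      have hGp := hG t ht0 m
      rcases Nat.lt_succ_iff_lt_or_eq.1 hm with hm | rfl
      · obtain ⟨k3, k4⟩ := k0 m hm
        refine ⟨fun hp => ⟨(k3 hp).1.trans ?_, (k3 hp).2.trans ?_⟩,
          fun hp => ⟨(k4 hp).1, (k4 hp).2.trans ?_⟩⟩
        · exact mul_le_mul_of_nonneg_right (by linarith [min_le_left ω ω']) hGp.le
        · exact mul_le_mul_of_nonneg_right (le_max_left _ _) hGp.le
        · exact mul_le_mul_of_nonneg_right (le_max_left _ _) hGp.le
      · refine ⟨fun _ => ⟨?_, ?_⟩, fun hp => absurd hP hp⟩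
        · have : F t m ≤ (1 - ω') * G t m := by
            have k5 := mul_le_mul_of_nonneg_right k1.le ht0.le
            have e3 : F t m / t * t = F t m := by field_simp
            have e4 : (1 - ω') * (G t m / t) * t = (1 - ω') * G t m := by field_simp
            linarith
          refine this.trans ?_
          exact mul_le_mul_of_nonneg_right (by linarith [min_le_right ω ω']) hGp.le
        · have k5 := mul_le_mul_of_nonneg_right k2.le ht0.le
          have e3 : G t m / t * t = G t m := by field_simp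
          rw [e3] at k5
          have k6 : t ≤ 2 / r' * G t m := by
            rw [div_mul_eq_mul_div, le_div_iff₀ hr']; linarith
          exact k6.trans (mul_le_mul_of_nonneg_right (le_max_right _ _) hGp.le)
    · obtain ⟨n, D, hn, hD, hFG⟩ := h2 hP
      refine ⟨ω, max C (4 * D / n), max K (2 / n), hω, hω1, lt_max_of_lt_left hC,
        lt_max_of_lt_left hK, ?_⟩
      have e1 : ∀ᶠ t in 𝓝[>] (0 : ℝ), t < min 1 (n / (2 * D)) := by
        have : (0 : ℝ) < min 1 (n / (2 * D)) := lt_min one_pos (by positivity)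
        filter_upwards [Ioo_mem_nhdsGT this] with t ht
        exact ht.2
      filter_upwards [hev, e1, self_mem_nhdsWithin] with t k0 k1 ht m hm
      have ht0 : (0 : ℝ) < t := ht
      have hGp := hG t ht0 m
      rcases Nat.lt_succ_iff_lt_or_eq.1 hm with hm | rfl
      · obtain ⟨k3, k4⟩ := k0 m hm
        refine ⟨fun hp => ⟨(k3 hp).1, (k3 hp).2.trans ?_⟩,
          fun hp => ⟨(k4 hp).1.trans ?_, (k4 hp).2.trans ?_⟩⟩
        · exact mul_le_mul_of_nonneg_right (le_max_left _ _) hGp.le
        · refine mul_le_mul_of_nonneg_right ?_ hGp.le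
          have := mul_le_mul_of_nonneg_right (le_max_left C (4 * D / n)) ht0.le
          linarith
        · exact mul_le_mul_of_nonneg_right (le_max_left _ _) hGp.le
      · refine ⟨fun hp => absurd hp hP, fun _ => ?_⟩
        have ht1 : t < 1 := k1.trans_le (min_le_left _ _)
        have htD : t < n / (2 * D) := k1.trans_le (min_le_right _ _)
        obtain ⟨k2, k3⟩ := hFG t ht0 ht1
        rw [abs_le] at k2 k3
        have htD' : D * t ≤ n / 2 := by
          rw [lt_div_iff₀ (by positivity)] at htD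
          linarith
        have hG2 : n / 2 ≤ G t m := by linarith
        constructor
        · have h3 : F t m ≤ G t m + 2 * (D * t) := by linarith
          have h4 : 2 * (D * t) ≤ 4 * D / n * t * G t m := by
            have : 4 * D / n * t * G t m = 4 * (D * t) * G t m / n := by ring
            rw [this, le_div_iff₀ hn]
            have hDt : 0 < D * t := by positivity
            nlinarith
          have h5 : 4 * D / n * t * G t m ≤ max C (4 * D / n) * t * G t m := by
            apply mul_le_mul_of_nonneg_right _ hGp.le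
            exact mul_le_mul_of_nonneg_right (le_max_right _ _) ht0.le
          have h6 : (1 + max C (4 * D / n) * t) * G t m =
              G t m + max C (4 * D / n) * t * G t m := by ring
          linarith
        · have h3 : 1 ≤ 2 / n * G t m := by
            rw [div_mul_eq_mul_div, le_div_iff₀ hn]; linarith
          exact h3.trans (mul_le_mul_of_nonneg_right (le_max_right _ _) hGp.le)

/-- BLOCK LIM (the two solutions after finitely many periods). -/
theorem lim_sys {a b : ℕ} (ha : Odd a) (hb : Odd b) (hab : a < b) (hc : Nat.Coprime a b)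
    (hN : 8 ≤ a + b) {A B A' B' : ℝ} (hA : 0 < A) (hB : 0 < B) (hA' : 0 < A') (hB' : 0 < B')
    (n : ℕ) (h1 : (rmap^[n] (A, B)).1 < (rmap^[n] (A', B')).1)
    (h2 : (rmap^[n] (A, B)).2 < (rmap^[n] (A', B')).2) :
    ∃ (P : ℕ → Prop) (E : ℕ) (ω C K t0 : ℝ), Even E ∧ 0 < ω ∧ ω < 1 ∧ 0 < C ∧ 0 < K ∧ 0 < t0 ∧
      ∀ t, 0 < t → t < t0 → ∀ m < b,
        (P m → wsol a b (runv a b t A B) (m + E) ≤ (1 - ω) * wsol a b (runv a b t A' B') (m + E) ∧
          t ≤ K * wsol a b (runv a b t A' B') (m + E)) ∧
        (¬ P m → wsol a b (runv a b t A B) (m + E) ≤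
            (1 + C * t) * wsol a b (runv a b t A' B') (m + E) ∧
          1 ≤ K * wsol a b (runv a b t A' B') (m + E)) := by
  have ha0 := ha.pos
  have hcN : Nat.Coprime a (a + b) := by simpa using hc
  obtain ⟨q, hq⟩ : ∃ q, a * q % (a + b) = 1 := by
    obtain ⟨q, _, hq⟩ := Nat.exists_mul_mod_eq_one_of_coprime hcN (by omega)
    exact ⟨q, hq⟩
  have hN6 : 6 ≤ a + b := by omega
  set E := (a + b) * (n + 1) with hE
  have hEe : Even E := (ha.add_odd hb).mul_right _
  set P : ℕ → Prop := fun m => pp a b q m < 4 ∨ pp a b q m + 1 = a + b with hP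
  have hr1 : (rmap^[n + 1] (A, B)).1 < (rmap^[n + 1] (A', B')).1 ∧
      (rmap^[n + 1] (A, B)).2 < (rmap^[n + 1] (A', B')).2 := by
    rw [Function.iterate_succ_apply', Function.iterate_succ_apply']
    obtain ⟨p1, p2⟩ := rmap_iter_pos hA hB n
    exact rmap_lt p1 p2 h1 h2
  obtain ⟨p1, p2⟩ := rmap_iter_pos hA hB n
  obtain ⟨p1', p2'⟩ := rmap_iter_pos hA hB (n + 1)
  obtain ⟨a0, a2, a3, aN, a1⟩ := run_tend ha hb hab hN hq hA hB (n + 1)
  obtain ⟨b0, b2, b3, bN, b1⟩ := run_tend ha hb hab hN hq hA' hB' (n + 1)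
  obtain ⟨c0, c2, c3, cN, c1⟩ := run_tend ha hb hab hN hq hA hB n
  obtain ⟨d0, d2, d3, dN, d1⟩ := run_tend ha hb hab hN hq hA' hB' n
  obtain ⟨ω, C, K, hω, hω1, hC, hK, hev⟩ := unif
    (fun t m => wsol a b (runv a b t A B) (m + E)) (fun t m => wsol a b (runv a b t A' B') (m + E))
    (fun t ht m => w_pos ha hb hab hN hq ht hA' hB' _) P b (by
      intro m hm
      have hpE : pp a b q (m + E) = pp a b q m := pp_add_mul ha hb hab hN hq m (n + 1)
      constructor
      · intro hPm
        have hne1 : pp a b q m ≠ 1 := by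
          intro h
          have := pp_inj ha hb hab hN hq (n := m) (m := a + b - 1) (by omega) (by omega)
            (by rw [h, pp_N_sub_one ha hb hab hN hq])
          omega
        have k0 := pp_b_sub_one ha hb hab hN6 hq
        have k1 := pp_b_sub_one_sub_a ha hb hab hN6 hq
        have k2 := pp_a_sub_one ha hb hab hN hq
        have k3 := pp_two_a_sub_one ha hb hab hN hq
        have hcases : m = b - 1 ∨ m = b - 1 - a ∨ m = a - 1 ∨ m = 2 * a - 1 := by
          rcases hPm with h | h
          · have : pp a b q m = 0 ∨ pp a b q m = 2 ∨ pp a b q m = 3 := by omega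
            rcases this with h | h | h
            · left; exact pp_inj ha hb hab hN hq (by omega) (by omega) (by rw [h, k0])
            · right; right; left
              exact pp_inj ha hb hab hN hq (by omega) (by omega) (by rw [h, k2])
            · right; right; right
              exact pp_inj ha hb hab hN hq (by omega) (by omega) (by rw [h, k3])
          · right; left
            exact pp_inj ha hb hab hN hq (by omega) (by omega) (by omega)
        rcases hcases with rfl | rfl | rfl | rfl
        · exact ⟨_, _, p1', hr1.1, a0, b0⟩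
        · have e : b - 1 - a + E = 2 * b - 1 + (a + b) * n := by
            rw [hE]
            have : (a + b) * (n + 1) = (a + b) * n + (a + b) := by ring
            rw [this]; omega
          simp only [e]
          exact ⟨_, _, by positivity, by linarith, cN, dN⟩
        · exact ⟨_, _, p2', hr1.2, a2, b2⟩
        · exact ⟨_, _, by positivity, by linarith [hr1.2], a3, b3⟩
      · intro hPm
        have hlt := pp_lt ha hb hab hN6 hq m
        have h4 : 4 ≤ pp a b q m ∧ pp a b q m + 2 ≤ a + b := by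
          simp only [hP] at hPm
          omega
        obtain ⟨⟨C1, hC1, z1⟩, n1, _⟩ := zeroth ha hb hab hN hq hA hB (m + E)
        obtain ⟨⟨C2, hC2, z2⟩, _, _⟩ := zeroth ha hb hab hN hq hA' hB' (m + E)
        refine ⟨_, C1 + C2, n1 (by rw [hpE]; exact h4.1) (by rw [hpE]; exact h4.2), by positivity,
          fun t ht0 ht1 => ⟨(z1 t ht0 ht1).trans ?_, (z2 t ht0 ht1).trans ?_⟩⟩
        · nlinarith
        · nlinarith)
  obtain ⟨t0, ht0, hsub⟩ := mem_nhdsGT_iff_exists_Ioo_subset.1 hev
  refine ⟨P, E, ω, C, K, t0, hEe, hω, hω1, hC, hK, ht0, fun t h0 h1 m hm => ?_⟩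
  exact hsub ⟨h0, h1⟩ m hm

end Pool.Agent.Lib_helper65.RBO
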