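import Pool.Agent.Lib_helper65.RBO.P5s
import Pool.Agent.Lib_helper72.RBO.Ser
import Pool.Agent.Lib_helper48.RBO.P1
import Pool.Agent.Lib_helper35.RBO.P3
import Pool.Agent.Lib_helper72.RBO.Main4
import Pool.Agent.Lib_helper72.RBO.FO5

/-!
# Assembly of the ratio `1 : 3`
-/

namespace Pool.Agent.Lib_helper65.RBO

open Filter Topology
open Pool.Agent.Lib_helper65.RB

theorem series13 : SeriesSt :=
  Pool.Agent.Lib_helper72.RBO.series13_of
    (fun hR _ hF => Pool.Agent.Lib_helper48.RBO.app_series hR hF)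
    Pool.Agent.Lib_helper35.RBO.cw_conv

/-- The ratio `1 : 3`. -/
theorem ratio13 : ∃ (n : ℕ) (ε : ℝ) (c : ℕ → ℕ → ℝ), 0 < ε ∧ ε < 1 ∧
    Summable (fun p : ℕ × ℕ => |c p.1 p.2| * ε ^ (p.1 + p.2)) ∧ c 0 0 = 1 ∧
    (∀ u v : ℝ, |u - 2| ≤ ε / 8 → |v - 2| ≤ ε / 8 →
      u * dser c (u - 2) (v - 2) = v * dser c (v / u - 1) (1 / u + 1 / v - 1)) ∧
    ∀ k l : ℕ, max k l + 1 = 3 * (min k l + 1) →
      FO (graphSer ε c) {x | (fun i : Fin (max k l + 1) => x i) ∈ Basin k l} ∧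
      ∀ x : ℕ → ℝ, (∀ i ≤ max k l, 0 < x i) →
        (∀ j, x (j + max k l + 1) = 1 / x (j + max k l - k) + 1 / x (j + max k l - l)) →
        (∀ i, n * (min k l + 1) ≤ i → |x i * x (i + (min k l + 1)) - 2| ≤ ε / 2) ∧
        ((fun i : Fin (max k l + 1) => x i) ∈ Basin k l ↔
          ∀ i, n * (min k l + 1) ≤ i → i < (n + 1) * (min k l + 1) →
            x i * dser c (x i * x (i + (min k l + 1)) - 2)
              (x (i + (min k l + 1)) * x (i + 2 * (min k l + 1)) - 2) = √2) := by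
  obtain ⟨n, ε, c, h1, h2, h3, h4, h5, h6⟩ := main5_sym series13
  exact ⟨n, ε, c, h1, h2, h3, h4, h5, fun k l hkl =>
    ⟨Pool.Agent.Lib_helper72.RBO.fo5_of (h6 k l hkl), h6 k l hkl⟩⟩

end Pool.Agent.Lib_helper65.RBO
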