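import Pool.Agent.Lib_helper65.RB.Asym
import Pool.Agent.Lib_helper65.RB.Struct

/-!
# First-order definability over the real field with one extra relation: definitions
-/

namespace Pool.Agent.Lib_helper65.RBO

open Filter Topology
open Pool.Agent.Lib_helper65.RB

/-- The sets that are first-order definable, with real parameters, in the real field expanded by
the relation `B ⊆ ℝ^n`. A point `x : ℕ → ℝ` is an assignment of values to the variables
`x 0, x 1, ...`. The atomic formulas are `p > 0` and `(p_1, ..., p_n) ∈ B` with polynomials `p`,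
`p_i` in the variables; the connectives are `not`, `and`; the quantifier `∃` binds the variable
`i`. -/
inductive FO {n : ℕ} (B : Set (Fin n → ℝ)) : Set (ℕ → ℝ) → Prop
  | pos (p : MvPolynomial ℕ ℝ) : FO B {x | 0 < MvPolynomial.eval x p}
  | mem (p : Fin n → MvPolynomial ℕ ℝ) : FO B {x | (fun i => MvPolynomial.eval x (p i)) ∈ B}
  | compl {s : Set (ℕ → ℝ)} : FO B s → FO B sᶜ
  | inter {s t : Set (ℕ → ℝ)} : FO B s → FO B t → FO B (s ∩ t)
  | ex (i : ℕ) {s : Set (ℕ → ℝ)} : FO B s → FO B {x | ∃ y : ℝ, Function.update x i y ∈ s}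

/-- `Z ⊆ ℝ` is first-order definable in the real field expanded by `B`: some formula in the single
variable `x 0` defines it. -/
def DefinableFrom {n : ℕ} (B : Set (Fin n → ℝ)) (Z : Set ℝ) : Prop := FO B {x | x 0 ∈ Z}

/-- `Z` is a finite union of intervals (order-connected sets: intervals with or without end points,
bounded or not, in particular points). -/
def FinUnionIntervals (Z : Set ℝ) : Prop :=
  ∃ F : Finset (Set ℝ), (∀ I ∈ F, I.OrdConnected) ∧ Z = ⋃ I ∈ F, I

/-- The map of the one-dimensional dynamics. -/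
noncomputable def fS (x : ℝ) : ℝ := (3 * x ^ 2 - 1) / (2 * x)

/-- The map of the run of two small cells. -/
noncomputable def rmap (p : ℝ × ℝ) : ℝ × ℝ :=
  (p.1 + p.1 * p.2 / (p.1 + p.2), p.2 + p.1 * p.2 / (p.1 + p.2))

/-- Initial data: run of two small even cells with values `t A`, `t B`. -/
noncomputable def runv (a b : ℕ) (t A B : ℝ) (n : ℕ) : ℝ :=
  if n = b - 1 then t * A else if n = b - 1 - a then t else if n = a - 1 then t * B
  else if n = 2 * a - 1 then 2 * (t * B) else 1

/-- The oscillating set, `a + b ≥ 8`. -/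
def ZZ (a b : ℕ) : Set ℝ := {e | 0 < e ∧ ∃ t0 : ℝ, 0 < t0 ∧ ∀ t : ℝ, 0 < t → t < t0 →
  LL a b (runv a b t (√(3 / 2) * (e / 2)) (√(3 / 2) * (1 + e / 2))) <
    LL a b (runv a b t (√2 * e / 2) (1 + √2 * e / 2))}

end Pool.Agent.Lib_helper65.RBO
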