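import Pool.Agent.Lib_helper65.RB.Struct

/-!
# The ratio `1 : 3`: definitions
-/

namespace Pool.Agent.Lib_helper65.RBO

open Filter Topology
open Pool.Agent.Lib_helper65.RB

/-- `F` is uniformly approximable by polynomials on the closed polydisc of radius `R`. -/
def App (R : ℝ) (F : ℂ → ℂ → ℂ) : Prop := ∀ ε > 0, ∃ P : Polynomial (Polynomial ℂ),
  ∀ s t : ℂ, ‖s‖ ≤ R → ‖t‖ ≤ R → ‖F s t - Polynomial.evalEval s t P‖ ≤ ε

/-- complex mean -/
noncomputable def cmean (j : ℕ) (x y : ℂ) : ℂ :=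
  if Even j then (x + y) / 2 else 2 * x * y / (x + y)

/-- the complex mean recursion for `(a, b) = (1, 3)`, started near `(1, 1, 1)` -/
noncomputable def cw (s t : ℂ) : ℕ → ℂ
  | 0 => 1
  | 1 => 2 / (2 + s)
  | 2 => (2 + t) / (2 + s)
  | (n + 3) => cmean (n + 3) (cw s t (n + 2)) (cw s t n)

/-- initial data for `(1, 3)` -/
noncomputable def v3 (x y z : ℝ) (n : ℕ) : ℝ := if n = 0 then x else if n = 1 then y else z

end Pool.Agent.Lib_helper65.RBO
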