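import Pool.Agent.Lib_helper65.RBO.Defs5

/-!
# The general pair: definitions
-/

namespace Pool.Agent.Lib_helper65.RBO

open Filter Topology
open Pool.Agent.Lib_helper65.RB

/-- `F` is uniformly approximable by polynomials on the closed polydisc of radius `R`. -/
def AppM {b : ℕ} (R : ℝ) (F : (Fin b → ℂ) → ℂ) : Prop := ∀ ε > 0, ∃ P : MvPolynomial (Fin b) ℂ,
  ∀ z : Fin b → ℂ, (∀ i, ‖z i‖ ≤ R) → ‖F z - MvPolynomial.eval z P‖ ≤ ε

/-- The complex mean recursion with initial data `1 + z_n`, `n < b`. -/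
noncomputable def cwg (a b : ℕ) (z : Fin b → ℂ) (n : ℕ) : ℂ :=
  if h : n < b then 1 + z ⟨n, h⟩
  else if a = 0 ∨ b = 0 then 1
  else cmean n (cwg a b z (n - a)) (cwg a b z (n - b))
termination_by n
decreasing_by all_goals omega

/-- The power series in `b` variables with coefficients `c`. -/
noncomputable def mser {b : ℕ} (c : (Fin b →₀ ℕ) → ℝ) (z : Fin b → ℝ) : ℝ :=
  ∑' α : Fin b →₀ ℕ, c α * ∏ i, z i ^ α i

/-- Absolute convergence on the closed polydisc of radius `ε`. -/
def AbsConv {b : ℕ} (c : (Fin b →₀ ℕ) → ℝ) (ε : ℝ) : Prop :=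
  Summable (fun α : Fin b →₀ ℕ => |c α| * ε ^ (∑ i, α i))

/-- The state of the row `j` at the time `n`: with `y_i = x ((n + i) d + j)` its entries are `y_i`
for even `i` and `2 / y_i` for odd `i`. -/
noncomputable def st (d : ℕ) (x : ℕ → ℝ) (n j i : ℕ) : ℝ :=
  if Even i then x ((n + i) * d + j) else 2 / x ((n + i) * d + j)

end Pool.Agent.Lib_helper65.RBO
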