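import Pool.Agent.Lib_helper65.RBO.Defs6

/-!
# Block G3a: contraction of the linear averaging recursion
-/

namespace Pool.Agent.Lib_helper65.RBO

open Filter Topology
open Pool.Agent.Lib_helper65.RB

theorem lin_band {a b : ℕ} (ha : 0 < a) (hab : a ≤ b) {r : ℕ → ℝ}
    (h : ∀ n, r (n + b) = (r (n + b - a) + r n) / 2) {M : ℝ} (h0 : ∀ n < b, r n ≤ M) :
    ∀ n, r n ≤ M := by
  intro n
  induction n using Nat.strong_induction_on with
  | _ n ih =>
    by_cases hn : n < b
    · exact h0 n hn
    · obtain ⟨j, rfl⟩ : ∃ j, n = j + b := ⟨n - b, by omega⟩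
      rw [h j]
      have h1 := ih (j + b - a) (by omega)
      have h2 := ih j (by omega)
      linarith

theorem lin_deficit {a b : ℕ} (ha : 0 < a) (hab : a ≤ b) {r : ℕ → ℝ}
    (h : ∀ n, r (n + b) = (r (n + b - a) + r n) / 2) {M : ℝ} (hM : ∀ n, r n ≤ M) :
    ∀ i j : ℕ, (M - r b) / 2 ^ (i + j) ≤ M - r (b + i * a + j * b) := by
  have stepb : ∀ n, (M - r n) / 2 ≤ M - r (n + b) := by
    intro n
    rw [h n]
    have h2 := hM (n + b - a)
    linarith
  have stepa : ∀ n, b ≤ n → (M - r n) / 2 ≤ M - r (n + a) := by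
    intro n hn
    obtain ⟨m, hm⟩ : ∃ m, n + a = m + b := ⟨n + a - b, by omega⟩
    rw [hm, h m]
    have h3 : m + b - a = n := by omega
    rw [h3]
    have h2 := hM m
    linarith
  intro i j
  induction j with
  | zero =>
    induction i with
    | zero => simp
    | succ i ih =>
      have h1 := stepa (b + i * a + 0 * b) (by
        have : 0 ≤ i * a := Nat.zero_le _
        omega)
      have h2 : b + (i + 1) * a + 0 * b = b + i * a + 0 * b + a := by ring
      rw [h2]
      refine le_trans ?_ h1
      have h3 : (M - r b) / 2 ^ (i + 1 + 0) = (M - r b) / 2 ^ (i + 0) / 2 := by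
        rw [div_div]; congr 1
      rw [h3]
      linarith
  | succ j ih =>
    have h1 := stepb (b + i * a + j * b)
    have h2 : b + i * a + (j + 1) * b = b + i * a + j * b + b := by ring
    rw [h2]
    refine le_trans ?_ h1
    have h3 : (M - r b) / 2 ^ (i + (j + 1)) = (M - r b) / 2 ^ (i + j) / 2 := by
      rw [div_div]; congr 1
    rw [h3]
    linarith

theorem lin_up {a b : ℕ} (ha : 0 < a) (hab : a ≤ b) (hc : Nat.Coprime a b) {r : ℕ → ℝ}
    (h : ∀ n, r (n + b) = (r (n + b - a) + r n) / 2) {M : ℝ} (hM : ∀ n, r n ≤ M) {n : ℕ}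
    (hn : b + a * b ≤ n) (hn2 : n ≤ b + a * b + b) :
    1 / 2 ^ (a * b + b) * (M - r b) ≤ M - r n := by
  have hb0 : 0 < b := by omega
  obtain ⟨i, j, hij⟩ := exists_repr ha hc (n := n - b) (by omega)
  have h3 := lin_deficit ha hab h hM i j
  have h4 : b + i * a + j * b = n := by omega
  rw [h4] at h3
  have h5 : i + j ≤ a * b + b := by
    have e1 : i ≤ i * a := Nat.le_mul_of_pos_right i ha
    have e2 : j ≤ j * b := Nat.le_mul_of_pos_right j hb0
    omega
  have hMw : 0 ≤ M - r b := by linarith [hM b]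
  refine le_trans ?_ h3
  rw [one_div, inv_mul_eq_div]
  apply div_le_div_of_nonneg_left hMw (by positivity)
  exact pow_le_pow_right₀ (by norm_num) h5

/-- Real contraction. -/
theorem lin_contract_real {a b : ℕ} (ha : 0 < a) (hab : a ≤ b) (hc : Nat.Coprime a b)
    {r : ℕ → ℝ} (h : ∀ n, r (n + b) = (r (n + b - a) + r n) / 2) {D : ℝ}
    (hD : ∀ i < b, ∀ j < b, r i - r j ≤ D) {i j : ℕ} (hi : b + a * b ≤ i) (hj : b + a * b ≤ j) :
    r i - r j ≤ (1 - 1 / 2 ^ (a * b + b)) * D := by
  have hb0 : 0 < b := by omega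
  obtain ⟨n₁, hn₁, hmin⟩ := (Finset.range b).exists_min_image r ⟨0, by simp; omega⟩
  obtain ⟨n₂, hn₂, hmax⟩ := (Finset.range b).exists_max_image r ⟨0, by simp; omega⟩
  rw [Finset.mem_range] at hn₁ hn₂
  have hM : ∀ n, r n ≤ r n₂ := lin_band ha hab h (fun n hn => hmax n (Finset.mem_range.2 hn))
  have h' : ∀ n, (fun n => - r n) (n + b) =
      ((fun n => - r n) (n + b - a) + (fun n => - r n) n) / 2 := by
    intro n
    beta_reduce
    rw [h n]; ring
  have hm : ∀ n, (fun n => - r n) n ≤ - r n₁ := lin_band ha hab h' (fun n hn => by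
    have := hmin n (Finset.mem_range.2 hn)
    beta_reduce
    linarith)
  set η : ℝ := 1 / 2 ^ (a * b + b) with hη
  -- upper bound on a whole window, then for all later times
  have hup : ∀ n, b + a * b ≤ n → r n ≤ r n₂ - η * (r n₂ - r b) := by
    intro n hn
    have hb1 := lin_band ha hab (r := fun n => r (n + (b + a * b))) (fun n => by
      beta_reduce
      have e1 : n + b + (b + a * b) = (n + (b + a * b)) + b := by ring
      have e2 : n + b - a + (b + a * b) = n + (b + a * b) + b - a := by omega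
      rw [e1, e2]
      exact h _) (M := r n₂ - η * (r n₂ - r b)) (fun n hn => by
        have := lin_up ha hab hc h hM (n := n + (b + a * b)) (by omega) (by omega)
        beta_reduce
        linarith) (n - (b + a * b))
    have e : n - (b + a * b) + (b + a * b) = n := by omega
    beta_reduce at hb1
    rw [e] at hb1
    exact hb1
  have hlow : ∀ n, b + a * b ≤ n → - r n ≤ - r n₁ - η * (- r n₁ - - r b) := by
    intro n hn
    have hb1 := lin_band ha hab (r := fun n => - r (n + (b + a * b))) (fun n => by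
      beta_reduce
      have e1 : n + b + (b + a * b) = (n + (b + a * b)) + b := by ring
      have e2 : n + b - a + (b + a * b) = n + (b + a * b) + b - a := by omega
      rw [e1, e2, h]
      ring) (M := - r n₁ - η * (- r n₁ - - r b)) (fun n hn => by
        have := lin_up ha hab hc h' hm (n := n + (b + a * b)) (by omega) (by omega)
        beta_reduce at this ⊢
        linarith) (n - (b + a * b))
    have e : n - (b + a * b) + (b + a * b) = n := by omega
    beta_reduce at hb1
    rw [e] at hb1
    exact hb1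
  have k1 := hup i hi
  have k2 := hlow j hj
  have k3 := hD n₂ hn₂ n₁ hn₁
  have hη1 : η ≤ 1 := by
    rw [hη, div_le_one (by positivity)]
    exact one_le_pow₀ (by norm_num)
  have k4 : r i - r j ≤ (1 - η) * (r n₂ - r n₁) := by
    have : (1 - η) * (r n₂ - r n₁) = (r n₂ - η * (r n₂ - r b)) +
      (- r n₁ - η * (- r n₁ - - r b)) := by ring
    rw [this]; linarith
  exact k4.trans (mul_le_mul_of_nonneg_left k3 (by linarith))

/-- BLOCK G3a. -/
theorem lin_contract {a b : ℕ} (ha : 0 < a) (hab : a ≤ b) (hc : Nat.Coprime a b) :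
    ∃ (K : ℕ) (η : ℝ), 0 < η ∧ η < 1 ∧ ∀ (u : ℕ → ℂ), (∀ n, u (n + b) = (u (n + b - a) + u n) / 2) →
      ∀ D : ℝ, (∀ i < b, ∀ j < b, ‖u i - u j‖ ≤ D) →
        ∀ i j, K ≤ i → K ≤ j → ‖u i - u j‖ ≤ (1 - η) * D := by
  have hb0 : 0 < b := by omega
  refine ⟨b + a * b, 1 / 2 ^ (a * b + b), by positivity, ?_, ?_⟩
  · rw [div_lt_one (by positivity)]
    exact one_lt_pow₀ (by norm_num) (by positivity)
  · intro u hu D hD i j hi hj
    obtain ⟨ω, hω, hωe⟩ : ∃ ω : ℂ, ‖ω‖ = 1 ∧ (ω * (u i - u j)).re = ‖u i - u j‖ := by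
      by_cases hz : u i - u j = 0
      · exact ⟨1, by simp, by simp [hz]⟩
      · refine ⟨(starRingEnd ℂ) (u i - u j) / ‖u i - u j‖, ?_, ?_⟩
        · have h0 : ‖u i - u j‖ ≠ 0 := norm_ne_zero_iff.2 hz
          rw [norm_div, Complex.norm_real, norm_norm, RCLike.norm_conj, div_self h0]
        · have h0 : (‖u i - u j‖ : ℂ) ≠ 0 := by
            exact_mod_cast norm_ne_zero_iff.2 hz
          have : (starRingEnd ℂ) (u i - u j) / ‖u i - u j‖ * (u i - u j) =
              ((‖u i - u j‖ : ℝ) : ℂ) := by
            rw [div_mul_eq_mul_div, mul_comm, Complex.mul_conj, div_eq_iff h0,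
              Complex.normSq_eq_norm_sq]
            push_cast
            ring
          rw [this, Complex.ofReal_re]
    have hr : ∀ n, (fun n => (ω * u n).re) (n + b) =
        ((fun n => (ω * u n).re) (n + b - a) + (fun n => (ω * u n).re) n) / 2 := by
      intro n
      beta_reduce
      rw [hu n]
      have : ω * ((u (n + b - a) + u n) / 2) = (ω * u (n + b - a) + ω * u n) / 2 := by ring
      rw [this]
      simp
    have := lin_contract_real (r := fun n => (ω * u n).re) ha hab hc hr (D := D) (fun i hi j hj => by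
      beta_reduce
      rw [← Complex.sub_re, ← mul_sub]
      refine (Complex.re_le_norm _).trans ?_
      rw [norm_mul, hω, one_mul]
      exact hD i hi j hj) hi hj
    beta_reduce at this
    rw [← Complex.sub_re, ← mul_sub, hωe] at this
    exact this

end Pool.Agent.Lib_helper65.RBO
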