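import Pool.Agent.Lib_helper65.RBO.Defs6

/-!
# Block G5: the general pair
-/

namespace Pool.Agent.Lib_helper65.RBO

open Filter Topology
open Pool.Agent.Lib_helper65.RB

/-- statement of `series_gen` -/
def SerGen (a b : ℕ) : Prop :=
    ∃ (ε : ℝ) (c : (Fin b →₀ ℕ) → ℝ), 0 < ε ∧ ε < 1 ∧ AbsConv c ε ∧
    ∀ z : Fin b → ℝ, (∀ i, |z i| ≤ ε) →
      LL a b (fun n => if h : n < b then 1 + z ⟨n, h⟩ else 1) = mser c z

theorem LL_one {a b : ℕ} (ha : 0 < a) (hab : a ≤ b) (hc : Nat.Coprime a b) :
    LL a b (fun _ => (1 : ℝ)) = 1 := by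
  apply LL_eq ha hab hc _ (fun _ _ => one_pos) tendsto_const_nhds
  intro n
  exact (mean_self _ one_pos).symm

theorem mser_zero {b : ℕ} (c : (Fin b →₀ ℕ) → ℝ) : mser c (fun _ => 0) = c 0 := by
  unfold mser
  rw [tsum_eq_single 0]
  · simp
  · intro α hα
    obtain ⟨i, hi⟩ : ∃ i, α i ≠ 0 := by
      by_contra h
      push Not at h
      exact hα (Finsupp.ext h)
    rw [Finset.prod_eq_zero (Finset.mem_univ i) (zero_pow hi), mul_zero]

/-- The core, for an ordered pair. -/
theorem core6 {a b d k l : ℕ} (ha : Odd a) (hb : Odd b) (hab : a < b) (hc : Nat.Coprime a b)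
    (hd : 0 < d) (hk : k + 1 = d * a) (hl : l + 1 = d * b) (hs : SerGen a b) :
    ∃ (ε : ℝ) (c : (Fin b →₀ ℕ) → ℝ), 0 < ε ∧ ε < 1 ∧ AbsConv c ε ∧ c 0 = 1 ∧
    ∀ x : ℕ → ℝ, (∀ i ≤ l, 0 < x i) →
      (∀ j, x (j + l + 1) = 1 / x (j + l - k) + 1 / x j) →
      (∃ N, ∀ n, N ≤ n → Even n → ∀ j < d, ∀ i < b, |st d x n j i / st d x n j 0 - 1| ≤ ε / 2) ∧
      ∀ n, Even n → (∀ j < d, ∀ i < b, |st d x n j i / st d x n j 0 - 1| ≤ ε / 2) →
        ((fun i : Fin (l + 1) => x i) ∈ BasinM k l l ↔
          ∀ j < d, st d x n j 0 * mser c (fun i : Fin b => st d x n j i / st d x n j 0 - 1) =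
            √2) := by
  obtain ⟨ε, c, hε, hε1, hconv, hser⟩ := hs
  have ha0 := ha.pos
  have hb0 := hb.pos
  have h00 : c 0 = 1 := by
    have h := hser (fun _ => 0) (fun i => by simpa using hε.le)
    rw [mser_zero] at h
    rw [← h]
    have e : (fun n : ℕ => if h : n < b then (1 : ℝ) + (fun _ : Fin b => (0 : ℝ)) ⟨n, h⟩ else 1) =
        fun _ => 1 := by
      funext n; split_ifs <;> simp
    rw [e, LL_one ha0 hab.le hc]
  refine ⟨ε, c, hε, hε1, hconv, h00, ?_⟩
  intro x hx0 hx
  have hkl : k < l := by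
    have : d * a < d * b := Nat.mul_lt_mul_of_pos_left hab hd
    omega
  have hxp : ∀ n, 0 < x n := by
    intro n
    induction n using Nat.strong_induction_on with
    | _ n ih =>
      by_cases hn : n ≤ l
      · exact hx0 n hn
      · obtain ⟨j, rfl⟩ : ∃ j, n = j + l + 1 := ⟨n - (l + 1), by omega⟩
        rw [hx j]
        have := ih (j + l - k) (by omega)
        have := ih j (by omega)
        positivity
  -- the rows
  have hzsol : ∀ r, IsSol a b (fun j => x (d * j + r)) := by
    intro r j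
    have h := hx (d * j + r)
    have e1 : d * j + r + l + 1 = d * (j + b) + r := by rw [mul_add, ← hl]; ring
    have e2 : d * j + r + l - k = d * (j + b - a) + r := by
      have h1 : j + b - a + a = j + b := by omega
      have h3 : d * (j + b - a) + d * a = d * j + d * b := by
        rw [← mul_add, h1, mul_add]
      omega
    rw [e1, e2] at h
    exact h
  have hzp : ∀ r j, 0 < x (d * j + r) := fun r j => hxp _
  have hW : ∀ r, IsW a b (flp (fun j => x (d * j + r))) := fun r =>
    isW_flp ha hb hab.le (fun j => hzp r j) (hzsol r)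
  have hWp : ∀ r j, 0 < flp (fun j => x (d * j + r)) j := fun r j =>
    flp_pos (fun j => hzp r j) j
  have hst : ∀ n, Even n → ∀ j i, st d x n j i = flp (fun j' => x (d * j' + j)) (i + n) := by
    intro n hn j i
    unfold st flp
    have e : (n + i) * d + j = d * (i + n) + j := by ring
    have e2 : Even (i + n) ↔ Even i := by
      rw [Nat.even_add]; simp [hn]
    rw [e]
    by_cases hi : Even i
    · rw [if_pos hi, if_pos (e2.2 hi)]
    · rw [if_neg hi, if_neg (fun h => hi (e2.1 h))]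
  constructor
  · -- convergence
    have h1 : ∀ j : ℕ, ∃ N, ∀ m m', N ≤ m → N ≤ m' →
        |flp (fun j' => x (d * j' + j)) m / flp (fun j' => x (d * j' + j)) m' - 1| ≤ ε / 2 := by
      intro j
      obtain ⟨L, hL, hT⟩ := (hW j).converges ha0 hab.le hc (fun n _ => hWp j n)
      have hev : ∀ᶠ p : ℕ × ℕ in atTop,
          |flp (fun j' => x (d * j' + j)) p.1 / flp (fun j' => x (d * j' + j)) p.2 - 1| < ε / 2 := by
        have hT1 : Tendsto (fun p : ℕ × ℕ => flp (fun j' => x (d * j' + j)) p.1) atTop (𝓝 L) := by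
          rw [← prod_atTop_atTop_eq]; exact hT.comp tendsto_fst
        have hT2 : Tendsto (fun p : ℕ × ℕ => flp (fun j' => x (d * j' + j)) p.2) atTop (𝓝 L) := by
          rw [← prod_atTop_atTop_eq]; exact hT.comp tendsto_snd
        have hT3 := ((hT1.div hT2 hL.ne').sub_const 1).abs
        rw [div_self hL.ne', sub_self, abs_zero] at hT3
        exact hT3.eventually_lt_const (by positivity)
      obtain ⟨⟨N1, N2⟩, hN⟩ := eventually_atTop.1 hev
      refine ⟨max N1 N2, fun m m' hm hm' => (hN (m, m') ?_).le⟩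
      exact ⟨le_of_max_le_left hm, le_of_max_le_right hm'⟩
    choose N hN using h1
    refine ⟨(Finset.range d).sup N, fun n hn hne j hj i _ => ?_⟩
    have hNj : N j ≤ n := (Finset.le_sup (Finset.mem_range.2 hj)).trans hn
    rw [hst n hne, hst n hne]
    exact hN j _ _ (by omega) (by omega)
  · intro n hne hclose
    rw [mem_BasinM_iff ha hb hab hc hd hk hl]
    have key : ∀ r (hr : r < d), (row hl (fun i : Fin (l + 1) => x i) r hr ∈ Red a b ↔
        st d x n r 0 * mser c (fun i : Fin b => st d x n r i / st d x n r 0 - 1) = √2) := by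
      intro r hr
      have hrow : ∀ j, row hl (fun i : Fin (l + 1) => x i) r hr j = x (d * (j : ℕ) + r) := by
        intro j; rfl
      have hLL : LL a b (ww (row hl (fun i : Fin (l + 1) => x i) r hr)) =
          LL a b (flp (fun j => x (d * j + r))) := by
        apply LL_congr ha0 hab.le hc
        · intro j _
          exact ww_pos (fun i => by rw [hrow]; exact hxp _) j
        · intro j hj
          unfold ww flp
          rw [dif_pos hj, hrow]
      have hsh := LL_shift_even ha0 hab.le hc (hW r) (fun j _ => hWp r j) hne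
      have p0 : 0 < st d x n r 0 := by rw [hst n hne]; exact hWp r _
      have hval := hser (fun i : Fin b => st d x n r i / st d x n r 0 - 1)
        (fun i => (hclose r hr i i.2).trans (by linarith))
      have hpos : ∀ j < b, 0 < (fun j : ℕ => if h : j < b then
          1 + (fun i : Fin b => st d x n r i / st d x n r 0 - 1) ⟨j, h⟩ else (1 : ℝ)) j := by
        intro j hj
        simp only
        rw [dif_pos hj]
        have := hWp r (j + n)
        rw [← hst n hne] at this
        have h2 : 1 + (st d x n r j / st d x n r 0 - 1) = st d x n r j / st d x n r 0 := by ring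
        rw [h2]
        positivity
      rw [← hval, ← LL_smul ha0 hab.le hc hpos p0]
      have hfin : LL a b (fun j => flp (fun j' => x (d * j' + r)) (j + n)) =
          LL a b (fun j => st d x n r 0 * (if h : j < b then
            1 + (fun i : Fin b => st d x n r i / st d x n r 0 - 1) ⟨j, h⟩ else (1 : ℝ))) := by
        apply LL_congr ha0 hab.le hc (fun j _ => hWp r _)
        intro j hj
        rw [dif_pos hj, ← hst n hne]
        simp only
        field_simp
        ring
      rw [← hfin, hsh, ← hLL]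
      constructor
      · exact fun h => h.2
      · exact fun h => ⟨fun i => by rw [hrow]; exact hxp _, h⟩
    constructor
    · exact fun h j hj => (key j hj).1 (h j hj)
    · exact fun h r hr => (key r hr).2 (h r hr)

/-- BLOCK G5. -/
theorem main6_of (hs : ∀ a b : ℕ, 0 < a → a ≤ b → Nat.Coprime a b → SerGen a b)
    {k l : ℕ} (hkl : k ≠ l) (hv : padicValNat 2 (k + 1) = padicValNat 2 (l + 1))
    {d b : ℕ} (hd : d = Nat.gcd (k + 1) (l + 1)) (hb : max k l + 1 = b * d) :
    ∃ (ε : ℝ) (c : (Fin b →₀ ℕ) → ℝ), 0 < ε ∧ ε < 1 ∧ AbsConv c ε ∧ c 0 = 1 ∧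
    ∀ x : ℕ → ℝ, (∀ i ≤ max k l, 0 < x i) →
      (∀ j, x (j + max k l + 1) = 1 / x (j + max k l - k) + 1 / x (j + max k l - l)) →
      (∃ N, ∀ n, N ≤ n → Even n → ∀ j < d, ∀ i < b, |st d x n j i / st d x n j 0 - 1| ≤ ε / 2) ∧
      ∀ n, Even n → (∀ j < d, ∀ i < b, |st d x n j i / st d x n j 0 - 1| ≤ ε / 2) →
        ((fun i : Fin (max k l + 1) => x i) ∈ Basin k l ↔
          ∀ j < d, st d x n j 0 * mser c (fun i : Fin b => st d x n j i / st d x n j 0 - 1) = √2) := by
  unfold Basin
  -- ordered version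
  have main : ∀ k l : ℕ, k < l → padicValNat 2 (k + 1) = padicValNat 2 (l + 1) →
      d = Nat.gcd (k + 1) (l + 1) → l + 1 = b * d →
      ∃ (ε : ℝ) (c : (Fin b →₀ ℕ) → ℝ), 0 < ε ∧ ε < 1 ∧ AbsConv c ε ∧ c 0 = 1 ∧
      ∀ x : ℕ → ℝ, (∀ i ≤ l, 0 < x i) →
        (∀ j, x (j + l + 1) = 1 / x (j + l - k) + 1 / x j) →
        (∃ N, ∀ n, N ≤ n → Even n → ∀ j < d, ∀ i < b, |st d x n j i / st d x n j 0 - 1| ≤ ε / 2) ∧
        ∀ n, Even n → (∀ j < d, ∀ i < b, |st d x n j i / st d x n j 0 - 1| ≤ ε / 2) →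
          ((fun i : Fin (l + 1) => x i) ∈ BasinM k l l ↔
            ∀ j < d, st d x n j 0 * mser c (fun i : Fin b => st d x n j i / st d x n j 0 - 1) =
              √2) := by
    intro k l hlt hv hd hb
    obtain ⟨a', b', h1, h2, h3, h4, h5, h6, h7⟩ := reduced_pair hlt hv
    rw [← hd] at h5 h6 h7
    have hbb : b' = b := by
      have : d * b' = d * b := by rw [← h7, hb, mul_comm]
      exact Nat.eq_of_mul_eq_mul_left h5 this
    subst hbb
    exact core6 h1 h2 h3 h4 h5 h6 h7 (hs a' b' h1.pos h3.le h4)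
  rcases Nat.lt_or_gt_of_ne hkl with h | h
  · have hm : max k l = l := max_eq_right h.le
    obtain ⟨m, hm'⟩ : ∃ m, m = max k l := ⟨_, rfl⟩
    rw [← hm'] at hb ⊢
    obtain rfl : m = l := by omega
    obtain ⟨ε, c, g1, g2, g3, g4, g5⟩ := main k m h hv hd hb
    refine ⟨ε, c, g1, g2, g3, g4, fun x hx hr => g5 x hx fun j => ?_⟩
    have := hr j
    rwa [Nat.add_sub_cancel] at this
  · obtain ⟨m, hm'⟩ : ∃ m, m = max k l := ⟨_, rfl⟩
    rw [← hm'] at hb ⊢
    have hm2 : max k l = k := max_eq_left h.le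
    obtain rfl : m = k := by omega
    obtain ⟨ε, c, g1, g2, g3, g4, g5⟩ := main l m h hv.symm (by rw [hd, Nat.gcd_comm]) hb
    rw [BasinM_symm]
    refine ⟨ε, c, g1, g2, g3, g4, fun x hx hr => g5 x hx fun j => ?_⟩
    have := hr j
    rw [Nat.add_sub_cancel] at this
    rw [this, add_comm]

end Pool.Agent.Lib_helper65.RBO
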