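import Pool.Agent.Lib_helper65.RBO.Defs

/-!
# The limit system of a run of two small cells
-/

namespace Pool.Agent.Lib_helper65.RBO

open Filter Topology
open Pool.Agent.Lib_helper65.RB

theorem hm_lip {x y u v : ℝ} (hx : 0 < x) (hy : 0 < y) (hu : 0 < u) (hv : 0 < v) :
    |2 * x * y / (x + y) - 2 * u * v / (u + v)| ≤ 2 * |x - u| + 2 * |y - v| := by
  have e : 2 * x * y / (x + y) - 2 * u * v / (u + v) =
      2 * (y * v / ((x + y) * (u + v))) * (x - u) + 2 * (x * u / ((x + y) * (u + v))) * (y - v) := by
    field_simp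
    ring
  have h1 : |y * v / ((x + y) * (u + v))| ≤ 1 := by
    rw [abs_of_pos (by positivity), div_le_one (by positivity)]
    nlinarith [mul_pos hx hu, mul_pos hx hv, mul_pos hy hu]
  have h2 : |x * u / ((x + y) * (u + v))| ≤ 1 := by
    rw [abs_of_pos (by positivity), div_le_one (by positivity)]
    nlinarith [mul_pos hy hv, mul_pos hx hv, mul_pos hy hu]
  rw [e]
  refine (abs_add_le _ _).trans ?_
  rw [abs_mul, abs_mul, abs_mul, abs_mul, abs_of_pos (two_pos : (0 : ℝ) < 2)]
  have h3 := abs_nonneg (x - u)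
  have h4 := abs_nonneg (y - v)
  nlinarith [mul_le_mul_of_nonneg_right h1 h3, mul_le_mul_of_nonneg_right h2 h4]

theorem rmap_pos {p : ℝ × ℝ} (h1 : 0 < p.1) (h2 : 0 < p.2) :
    0 < (rmap p).1 ∧ 0 < (rmap p).2 := by
  unfold rmap
  constructor <;> positivity

theorem rmap_iter_pos {A B : ℝ} (hA : 0 < A) (hB : 0 < B) (n : ℕ) :
    0 < (rmap^[n] (A, B)).1 ∧ 0 < (rmap^[n] (A, B)).2 := by
  induction n with
  | zero => exact ⟨hA, hB⟩
  | succ n ih =>
    rw [Function.iterate_succ_apply']
    exact rmap_pos ih.1 ih.2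

theorem rmap_lt {p q : ℝ × ℝ} (hp1 : 0 < p.1) (hp2 : 0 < p.2) (h1 : p.1 < q.1) (h2 : p.2 < q.2) :
    (rmap p).1 < (rmap q).1 ∧ (rmap p).2 < (rmap q).2 := by
  have hq1 : 0 < q.1 := hp1.trans h1
  have hq2 : 0 < q.2 := hp2.trans h2
  have h : p.1 * p.2 / (p.1 + p.2) < q.1 * q.2 / (q.1 + q.2) := by
    rw [div_lt_div_iff₀ (by positivity) (by positivity)]
    nlinarith [mul_lt_mul_of_pos_left h2 (mul_pos hp1 hq1), mul_lt_mul_of_pos_left h1 (mul_pos hp2 hq2)]
  unfold rmap
  constructor
  · simp only; linarith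
  · simp only; linarith

section
variable {a b q : ℕ} (ha : Odd a) (hb : Odd b) (hab : a < b) (hN : 8 ≤ a + b)
  (hq : a * q % (a + b) = 1)

include ha hb hab hN hq

theorem pp_N_sub_one : pp a b q (a + b - 1) = 1 := by
  have h1 := pp_add_a ha hb hab (by omega) hq (b - 1)
  rw [pp_b_sub_one ha hb hab (by omega) hq] at h1
  have e : b - 1 + a = a + b - 1 := by omega
  rw [e, Nat.mod_eq_of_lt (by omega)] at h1
  omega

theorem pp_a_sub_one : pp a b q (a - 1) = 2 := by
  have ha0 := ha.pos
  have h1 := pp_add_b ha hb hab (by omega) hq (a - 1)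
  have e : a - 1 + b = a + b - 1 := by omega
  rw [e, pp_N_sub_one ha hb hab hN hq, Nat.mod_eq_of_lt (by omega)] at h1
  omega

theorem pp_two_a_sub_one : pp a b q (2 * a - 1) = 3 := by
  have ha0 := ha.pos
  have h1 := pp_add_a ha hb hab (by omega) hq (a - 1)
  have e : a - 1 + a = 2 * a - 1 := by omega
  rw [e, pp_a_sub_one ha hb hab hN hq, Nat.mod_eq_of_lt (by omega)] at h1
  omega

theorem pp_inj {n m : ℕ} (hn : n < a + b) (hm : m < a + b) (h : pp a b q n = pp a b q m) :
    n = m := by
  have h1 := modEq_of_pp ha hb hab (by omega) hq h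
  have h2 := modEq_of_pp ha hb hab (by omega) hq (rfl : pp a b q m = pp a b q m)
  have h3 := h1.trans h2.symm
  have h4 : n ≡ m [MOD (a + b)] := by
    have e1 : n + a + 1 = n + (a + 1) := by ring
    have e2 : m + a + 1 = m + (a + 1) := by ring
    rw [e1, e2] at h3
    exact Nat.ModEq.add_right_cancel' _ h3
  have h5 : n % (a + b) = m % (a + b) := h4
  rwa [Nat.mod_eq_of_lt hn, Nat.mod_eq_of_lt hm] at h5

/-- initial data through cells -/
theorem runv_cell (t A B : ℝ) {n : ℕ} (hn : n < b) : runv a b t A B n =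
    if pp a b q n = 0 then t * A else if pp a b q n + 1 = a + b then t
    else if pp a b q n = 2 then t * B else if pp a b q n = 3 then 2 * (t * B) else 1 := by
  have ha0 := ha.pos
  have k0 := pp_b_sub_one ha hb hab (by omega) hq
  have k1 := pp_b_sub_one_sub_a ha hb hab (by omega) hq
  have k2 := pp_a_sub_one ha hb hab hN hq
  have k3 := pp_two_a_sub_one ha hb hab hN hq
  have i0 : pp a b q n = 0 ↔ n = b - 1 := by
    constructor
    · intro h; exact pp_inj ha hb hab hN hq (by omega) (by omega) (by rw [h, k0])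
    · rintro rfl; exact k0
  have i1 : pp a b q n + 1 = a + b ↔ n = b - 1 - a := by
    constructor
    · intro h; exact pp_inj ha hb hab hN hq (by omega) (by omega) (by omega)
    · rintro rfl; exact k1
  have i2 : pp a b q n = 2 ↔ n = a - 1 := by
    constructor
    · intro h; exact pp_inj ha hb hab hN hq (by omega) (by omega) (by rw [h, k2])
    · rintro rfl; exact k2
  have i3 : pp a b q n = 3 ↔ n = 2 * a - 1 := by
    constructor
    · intro h; exact pp_inj ha hb hab hN hq (by omega) (by omega) (by rw [h, k3])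
    · rintro rfl; exact k3
  unfold runv
  simp only [i0, i1, i2, i3]

theorem runv_pos {t A B : ℝ} (ht : 0 < t) (hA : 0 < A) (hB : 0 < B) (n : ℕ) :
    0 < runv a b t A B n := by
  unfold runv
  split_ifs <;> positivity

theorem w_pos {t A B : ℝ} (ht : 0 < t) (hA : 0 < A) (hB : 0 < B) (n : ℕ) :
    0 < wsol a b (runv a b t A B) n := by
  apply (wsol_isW ha.pos hab.le _).pos (by omega) ha.pos hab.le
  intro n hn
  rw [wsol_init hn]
  exact runv_pos ha hb hab hN hq ht hA hB n

theorem w_rec (v : ℕ → ℝ) {m : ℕ} (hm : b ≤ m) : wsol a b v m =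
    mean m (wsol a b v (m - a)) (wsol a b v (m - b)) := by
  obtain ⟨j, rfl⟩ : ∃ j, m = j + b := ⟨m - b, by omega⟩
  have h := wsol_isW ha.pos hab.le v j
  rw [h]
  congr 2
  omega

/-- The zeroth order system. -/
theorem zeroth {A B : ℝ} (hA : 0 < A) (hB : 0 < B) : ∀ m : ℕ,
    (∃ C : ℝ, 0 < C ∧ ∀ t, 0 < t → t < 1 →
      |wsol a b (runv a b t A B) m - wsol a b (runv a b 0 1 1) m| ≤ C * t) ∧
    (4 ≤ pp a b q m → pp a b q m + 2 ≤ a + b → 0 < wsol a b (runv a b 0 1 1) m) ∧
    ((pp a b q m < 4 ∨ pp a b q m + 1 = a + b) → wsol a b (runv a b 0 1 1) m = 0) := by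
  intro m
  have ha0 := ha.pos
  induction m using Nat.strong_induction_on with
  | _ m ih =>
    by_cases hm : m < b
    · have hne1 : pp a b q m ≠ 1 := by
        intro h
        have := pp_inj ha hb hab hN hq (n := m) (m := a + b - 1) (by omega) (by omega)
          (by rw [h, pp_N_sub_one ha hb hab hN hq])
        omega
      have hlt := pp_lt ha hb hab (by omega) hq m
      rw [wsol_init hm, runv_cell ha hb hab hN hq _ _ _ hm]
      refine ⟨?_, ?_, ?_⟩
      · refine ⟨A + B * 2 + 1, by positivity, fun t ht0 ht1 => ?_⟩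
        rw [wsol_init hm, runv_cell ha hb hab hN hq _ _ _ hm]
        split_ifs
        · rw [zero_mul, sub_zero, abs_of_pos (by positivity)]; nlinarith
        · rw [sub_zero, abs_of_pos ht0]; nlinarith
        · rw [zero_mul, sub_zero, abs_of_pos (by positivity)]; nlinarith
        · rw [zero_mul, mul_zero, sub_zero, abs_of_pos (by positivity)]; nlinarith
        · rw [sub_self, abs_zero]; positivity
      · intro h1 h2
        rw [if_neg (by omega), if_neg (by omega), if_neg (by omega), if_neg (by omega)]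
        exact one_pos
      · intro h
        split_ifs <;> first | (simp; done) | omega
    · push Not at hm
      obtain ⟨⟨C1, hC1, c1⟩, n1, z1⟩ := ih (m - a) (by omega)
      obtain ⟨⟨C2, hC2, c2⟩, n2, z2⟩ := ih (m - b) (by omega)
      have hlt := pp_lt ha hb hab (by omega) hq m
      have hev := pp_even ha hb hab (by omega) hq m
      have hNe : Even (a + b) := ha.add_odd hb
      have ea : pp a b q m ≠ 0 → pp a b q (m - a) = pp a b q m - 1 := by
        intro h
        have := pp_sub_a ha hb hab (by omega) hq (m := m) (by omega) h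
        omega
      have ea0 : pp a b q m = 0 → pp a b q (m - a) + 1 = a + b := by
        intro h
        have h1 := pp_add_a ha hb hab (by omega) hq (m - a)
        rw [Nat.sub_add_cancel (by omega), h] at h1
        have h2 := pp_lt ha hb hab (by omega) hq (m - a)
        by_contra h3
        rw [Nat.mod_eq_of_lt (by omega)] at h1
        omega
      have eb : pp a b q m + 1 < a + b → pp a b q (m - b) = pp a b q m + 1 := fun h =>
        pp_sub_b ha hb hab (by omega) hq (m := m) hm h
      have eb0 : pp a b q m + 1 = a + b → pp a b q (m - b) = 0 := by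
        intro h
        have h1 := pp_add_b ha hb hab (by omega) hq (m - b)
        rw [Nat.sub_add_cancel hm, h, Nat.mod_self] at h1
        exact h1
      have nn : ∀ j < m, 0 ≤ wsol a b (runv a b 0 1 1) j := by
        intro j hj
        obtain ⟨_, n3, z3⟩ := ih j hj
        have := pp_lt ha hb hab (by omega) hq j
        by_cases h : 4 ≤ pp a b q j ∧ pp a b q j + 2 ≤ a + b
        · exact (n3 h.1 h.2).le
        · rw [z3 (by omega)]
      have hna := nn (m - a) (by omega)
      have hnb := nn (m - b) (by omega)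
      by_cases he : Even m
      · have hpe := hev.2 he
        have r0 : ∀ v : ℕ → ℝ, wsol a b v m = (wsol a b v (m - a) + wsol a b v (m - b)) / 2 := by
          intro v
          rw [w_rec ha hb hab hN hq v hm]
          unfold mean
          rw [if_pos he]
        rw [r0 (runv a b 0 1 1)]
        refine ⟨⟨C1 + C2, by positivity, fun t ht0 ht1 => ?_⟩, ?_, ?_⟩
        · rw [r0]
          have h1 := c1 t ht0 ht1
          have h2 := c2 t ht0 ht1
          rw [abs_le] at h1 h2 ⊢
          constructor <;> nlinarith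
        · intro h1 h2
          by_cases h4 : pp a b q m = 4
          · have := n2 (by rw [eb (by omega)]; omega) (by rw [eb (by omega)]; omega)
            linarith
          · have hne : pp a b q m ≠ 5 := by
              intro h; rw [h] at hpe; exact absurd hpe (by decide)
            have := n1 (by rw [ea (by omega)]; omega) (by rw [ea (by omega)]; omega)
            linarith
        · intro h
          have hne1 : pp a b q m ≠ 1 := by
            intro h; rw [h] at hpe; exact absurd hpe (by decide)
          have hne3 : pp a b q m ≠ 3 := by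
            intro h; rw [h] at hpe; exact absurd hpe (by decide)
          have hneN : pp a b q m + 1 ≠ a + b := by
            intro h
            rw [← h] at hNe
            exact absurd hpe (Nat.even_add_one.1 hNe)
          rw [z1, z2]
          · simp
          · rw [eb (by omega)]; omega
          · by_cases h0 : pp a b q m = 0
            · right; exact ea0 h0
            · rw [ea h0]; omega
      · have hpo : ¬ Even (pp a b q m) := fun h => he (hev.1 h)
        have r0 : ∀ v : ℕ → ℝ, wsol a b v m = 2 * wsol a b v (m - a) * wsol a b v (m - b) /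
            (wsol a b v (m - a) + wsol a b v (m - b)) := by
          intro v
          rw [w_rec ha hb hab hN hq v hm]
          unfold mean
          rw [if_neg he]
        have hne0 : pp a b q m ≠ 0 := by
          intro h; rw [h] at hpo; exact absurd (by decide) hpo
        have hne2 : pp a b q m ≠ 2 := by
          intro h; rw [h] at hpo; exact absurd (by decide) hpo
        have hne4 : pp a b q m ≠ 4 := by
          intro h; rw [h] at hpo; exact absurd (by decide) hpo
        have hneN : pp a b q m + 2 ≠ a + b := by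
          intro h
          rw [← h] at hNe
          exact hpo ((Nat.even_add.1 hNe).2 even_two)
        have wp : ∀ t, 0 < t → ∀ j, 0 < wsol a b (runv a b t A B) j := fun t ht j =>
          w_pos ha hb hab hN hq ht hA hB j
        by_cases hs : pp a b q m < 4 ∨ pp a b q m + 1 = a + b
        · -- small odd cell
          have hz : wsol a b (runv a b 0 1 1) (m - a) = 0 ∨
              wsol a b (runv a b 0 1 1) (m - b) = 0 := by
            by_cases h4 : pp a b q m < 4
            · left; apply z1; rw [ea hne0]; omega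
            · right; apply z2; rw [eb0 (by omega)]; omega
          have hval : wsol a b (runv a b 0 1 1) m = 0 := by
            rw [r0]
            rcases hz with h | h <;> rw [h] <;> simp
          rw [hval]
          refine ⟨?_, fun h1 h2 => by omega, fun _ => rfl⟩
          rcases hz with h | h
          · refine ⟨2 * C1, by positivity, fun t ht0 ht1 => ?_⟩
            have h1 := c1 t ht0 ht1
            rw [h, sub_zero, abs_of_pos (wp t ht0 _)] at h1
            rw [sub_zero, abs_of_pos (wp t ht0 _), w_rec ha hb hab hN hq _ hm]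
            have := mean_odd_le_left he (wp t ht0 (m - a)) (wp t ht0 (m - b))
            linarith
          · refine ⟨2 * C2, by positivity, fun t ht0 ht1 => ?_⟩
            have h1 := c2 t ht0 ht1
            rw [h, sub_zero, abs_of_pos (wp t ht0 _)] at h1
            rw [sub_zero, abs_of_pos (wp t ht0 _), w_rec ha hb hab hN hq _ hm]
            have := mean_odd_le_right he (wp t ht0 (m - a)) (wp t ht0 (m - b))
            linarith
        · -- normal odd cell
          have p1 : 0 < wsol a b (runv a b 0 1 1) (m - a) :=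
            n1 (by rw [ea hne0]; omega) (by rw [ea hne0]; omega)
          have p2 : 0 < wsol a b (runv a b 0 1 1) (m - b) :=
            n2 (by rw [eb (by omega)]; omega) (by rw [eb (by omega)]; omega)
          rw [r0 (runv a b 0 1 1)]
          refine ⟨⟨2 * C1 + 2 * C2, by positivity, fun t ht0 ht1 => ?_⟩, fun _ _ => by positivity,
            fun h => absurd h hs⟩
          rw [r0]
          refine (hm_lip (wp t ht0 _) (wp t ht0 _) p1 p2).trans ?_
          have h1 := c1 t ht0 ht1
          have h2 := c2 t ht0 ht1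
          nlinarith

/-- Normal cells converge. -/
theorem tend_normal {A B : ℝ} (hA : 0 < A) (hB : 0 < B) (m : ℕ) :
    Tendsto (fun t => wsol a b (runv a b t A B) m) (𝓝[>] 0)
      (𝓝 (wsol a b (runv a b 0 1 1) m)) := by
  obtain ⟨⟨C, hC, h⟩, _, _⟩ := zeroth ha hb hab hN hq hA hB m
  rw [tendsto_iff_norm_sub_tendsto_zero]
  have h1 : Tendsto (fun t : ℝ => C * t) (𝓝[>] 0) (𝓝 0) := by
    have : Tendsto (fun t : ℝ => C * t) (𝓝 0) (𝓝 (C * 0)) := by
      apply Continuous.tendsto; fun_prop
    rw [mul_zero] at this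
    exact this.mono_left nhdsWithin_le_nhds
  refine squeeze_zero' (Eventually.of_forall fun t => norm_nonneg _) ?_ h1
  filter_upwards [Ioo_mem_nhdsGT (zero_lt_one (α := ℝ))] with t ht
  rw [Real.norm_eq_abs]
  exact h t ht.1 ht.2

theorem tend_even {A B : ℝ} {m : ℕ} (hm : b ≤ m) (he : Even m) {x y : ℝ}
    (h1 : Tendsto (fun t => wsol a b (runv a b t A B) (m - a) / t) (𝓝[>] 0) (𝓝 x))
    (h2 : Tendsto (fun t => wsol a b (runv a b t A B) (m - b) / t) (𝓝[>] 0) (𝓝 y)) :
    Tendsto (fun t => wsol a b (runv a b t A B) m / t) (𝓝[>] 0) (𝓝 ((x + y) / 2)) := by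
  refine ((h1.add h2).div_const 2).congr fun t => ?_
  rw [w_rec ha hb hab hN hq _ hm]
  unfold mean
  rw [if_pos he]
  ring

theorem tend_odd_ss {A B : ℝ} (hA : 0 < A) (hB : 0 < B) {m : ℕ} (hm : b ≤ m) (he : ¬ Even m)
    {x y : ℝ} (hx : 0 < x) (hy : 0 < y)
    (h1 : Tendsto (fun t => wsol a b (runv a b t A B) (m - a) / t) (𝓝[>] 0) (𝓝 x))
    (h2 : Tendsto (fun t => wsol a b (runv a b t A B) (m - b) / t) (𝓝[>] 0) (𝓝 y)) :
    Tendsto (fun t => wsol a b (runv a b t A B) m / t) (𝓝[>] 0) (𝓝 (2 * x * y / (x + y))) := by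
  have h3 := ((h1.const_mul 2).mul h2).div (h1.add h2) (by positivity)
  refine h3.congr' ?_
  filter_upwards [self_mem_nhdsWithin] with t ht
  have ht0 : (0 : ℝ) < t := ht
  rw [w_rec ha hb hab hN hq _ hm]
  unfold mean
  rw [if_neg he]
  have p1 := w_pos ha hb hab hN hq ht0 hA hB (m - a)
  have p2 := w_pos ha hb hab hN hq ht0 hA hB (m - b)
  simp only [Pi.mul_apply, Pi.add_apply, Pi.div_apply]
  field_simp

theorem hm_tend {f g : ℝ → ℝ} {x n : ℝ} (hn : 0 < n)
    (hf : Tendsto (fun t => f t / t) (𝓝[>] 0) (𝓝 x)) (hg : Tendsto g (𝓝[>] 0) (𝓝 n)) :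
    Tendsto (fun t => 2 * f t * g t / (f t + g t) / t) (𝓝[>] 0) (𝓝 (2 * x)) := by
  have ht : Tendsto (fun t : ℝ => t) (𝓝[>] 0) (𝓝 0) := tendsto_id.mono_left nhdsWithin_le_nhds
  have h0 : Tendsto (fun t => f t) (𝓝[>] 0) (𝓝 0) := by
    have h := hf.mul ht
    rw [mul_zero] at h
    refine h.congr' ?_
    filter_upwards [self_mem_nhdsWithin] with t ht
    have ht0 : (0 : ℝ) < t := ht
    field_simp
  have h1 := ((hf.const_mul 2).mul hg).div (h0.add hg) (by rw [zero_add]; exact hn.ne')
  have e : 2 * x * n / (0 + n) = 2 * x := by field_simp; ring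
  rw [e] at h1
  refine h1.congr fun t => ?_
  simp only [Pi.mul_apply, Pi.add_apply, Pi.div_apply]
  ring

theorem tend_odd_sn {A B : ℝ} {m : ℕ} (hm : b ≤ m) (he : ¬ Even m)
    {x n : ℝ} (hn : 0 < n)
    (h1 : Tendsto (fun t => wsol a b (runv a b t A B) (m - a) / t) (𝓝[>] 0) (𝓝 x))
    (h2 : Tendsto (fun t => wsol a b (runv a b t A B) (m - b)) (𝓝[>] 0) (𝓝 n)) :
    Tendsto (fun t => wsol a b (runv a b t A B) m / t) (𝓝[>] 0) (𝓝 (2 * x)) := by
  refine (hm_tend ha hb hab hN hq hn h1 h2).congr fun t => ?_
  rw [w_rec ha hb hab hN hq _ hm]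
  unfold mean
  rw [if_neg he]

theorem tend_odd_ns {A B : ℝ} {m : ℕ} (hm : b ≤ m) (he : ¬ Even m)
    {x n : ℝ} (hn : 0 < n)
    (h1 : Tendsto (fun t => wsol a b (runv a b t A B) (m - a)) (𝓝[>] 0) (𝓝 n))
    (h2 : Tendsto (fun t => wsol a b (runv a b t A B) (m - b) / t) (𝓝[>] 0) (𝓝 x)) :
    Tendsto (fun t => wsol a b (runv a b t A B) m / t) (𝓝[>] 0) (𝓝 (2 * x)) := by
  refine (hm_tend ha hb hab hN hq hn h2 h1).congr fun t => ?_
  rw [w_rec ha hb hab hN hq _ hm]
  unfold mean
  rw [if_neg he]
  ring

theorem pp_add_mul (n j : ℕ) : pp a b q (n + (a + b) * j) = pp a b q n := by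
  induction j with
  | zero => simp
  | succ j ih =>
    have e : n + (a + b) * (j + 1) = n + (a + b) * j + (a + b) := by ring
    rw [e, pp_add_N ha hb hab (by omega) hq, ih]

/-- The run. -/
theorem run_tend {A B : ℝ} (hA : 0 < A) (hB : 0 < B) : ∀ j : ℕ,
    Tendsto (fun t => wsol a b (runv a b t A B) (b - 1 + (a + b) * j) / t) (𝓝[>] 0)
      (𝓝 (rmap^[j] (A, B)).1) ∧
    Tendsto (fun t => wsol a b (runv a b t A B) (a - 1 + (a + b) * j) / t) (𝓝[>] 0)
      (𝓝 (rmap^[j] (A, B)).2) ∧
    Tendsto (fun t => wsol a b (runv a b t A B) (2 * a - 1 + (a + b) * j) / t) (𝓝[>] 0)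
      (𝓝 (2 * (rmap^[j] (A, B)).2)) ∧
    Tendsto (fun t => wsol a b (runv a b t A B) (2 * b - 1 + (a + b) * j) / t) (𝓝[>] 0)
      (𝓝 (2 * (rmap^[j] (A, B)).1)) ∧
    Tendsto (fun t => wsol a b (runv a b t A B) (a + b - 1 + (a + b) * j) / t) (𝓝[>] 0)
      (𝓝 (2 * (rmap^[j] (A, B)).1 * (rmap^[j] (A, B)).2 /
        ((rmap^[j] (A, B)).1 + (rmap^[j] (A, B)).2))) := by
  have ha0 := ha.pos
  have hNe : Even (a + b) := ha.add_odd hb
  have hNj : ∀ j, Even ((a + b) * j) := fun j => hNe.mul_right j
  -- the derived ones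
  have derived : ∀ j : ℕ,
      Tendsto (fun t => wsol a b (runv a b t A B) (b - 1 + (a + b) * j) / t) (𝓝[>] 0)
        (𝓝 (rmap^[j] (A, B)).1) →
      Tendsto (fun t => wsol a b (runv a b t A B) (a - 1 + (a + b) * j) / t) (𝓝[>] 0)
        (𝓝 (rmap^[j] (A, B)).2) →
      (Tendsto (fun t => wsol a b (runv a b t A B) (2 * a - 1 + (a + b) * j) / t) (𝓝[>] 0)
        (𝓝 (2 * (rmap^[j] (A, B)).2)) ∧
      Tendsto (fun t => wsol a b (runv a b t A B) (2 * b - 1 + (a + b) * j) / t) (𝓝[>] 0)
        (𝓝 (2 * (rmap^[j] (A, B)).1)) ∧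
      Tendsto (fun t => wsol a b (runv a b t A B) (a + b - 1 + (a + b) * j) / t) (𝓝[>] 0)
        (𝓝 (2 * (rmap^[j] (A, B)).1 * (rmap^[j] (A, B)).2 /
          ((rmap^[j] (A, B)).1 + (rmap^[j] (A, B)).2)))) := by
    intro j t0 t2
    obtain ⟨rp1, rp2⟩ := rmap_iter_pos hA hB j
    have odd1 : ∀ c : ℕ, 0 < c → ¬ Even (2 * c - 1 + (a + b) * j) := by
      intro c hc h
      have := (Nat.even_add.1 h).2 (hNj j)
      rw [Nat.even_iff] at this
      omega
    have odd2 : ¬ Even (a + b - 1 + (a + b) * j) := by
      intro h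
      have h1 := (Nat.even_add.1 h).2 (hNj j)
      rw [Nat.even_iff] at h1 hNe
      omega
    refine ⟨?_, ?_, ?_⟩
    · by_cases hm : b ≤ 2 * a - 1 + (a + b) * j
      · have hp : pp a b q (2 * a - 1 + (a + b) * j) = 3 := by
          rw [pp_add_mul ha hb hab hN hq, pp_two_a_sub_one ha hb hab hN hq]
        have hp4 : pp a b q (2 * a - 1 + (a + b) * j - b) = 4 := by
          rw [pp_sub_b ha hb hab (by omega) hq hm (by omega), hp]
        have e : 2 * a - 1 + (a + b) * j - a = a - 1 + (a + b) * j := by omega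
        refine tend_odd_sn ha hb hab hN hq hm (odd1 a ha0)
          ((zeroth ha hb hab hN hq hA hB (2 * a - 1 + (a + b) * j - b)).2.1 (by omega) (by omega))
          ?_ (tend_normal ha hb hab hN hq hA hB _)
        rw [e]; exact t2
      · have hj : j = 0 := by
          by_contra hj
          have : (a + b) * 1 ≤ (a + b) * j := Nat.mul_le_mul_left _ (by omega)
          omega
        subst hj
        simp only [Nat.mul_zero, Nat.add_zero] at hm ⊢
        have hlt : 2 * a - 1 < b := by omega
        have : ∀ t : ℝ, wsol a b (runv a b t A B) (2 * a - 1) = 2 * (t * B) := by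
          intro t
          rw [wsol_init hlt, runv_cell ha hb hab hN hq _ _ _ hlt,
            pp_two_a_sub_one ha hb hab hN hq, if_neg (by omega), if_neg (by omega),
            if_neg (by omega), if_pos rfl]
        refine Tendsto.congr' ?_ (tendsto_const_nhds)
        filter_upwards [self_mem_nhdsWithin] with t ht
        have ht0 : (0 : ℝ) < t := ht
        rw [this]
        simp only [Function.iterate_zero, id_eq]
        field_simp
    · have hm : b ≤ 2 * b - 1 + (a + b) * j := by omega
      have hk1 := pp_b_sub_one_sub_a ha hb hab (by omega) hq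
      have e0 : 2 * b - 1 + (a + b) * j = b - 1 - a + (a + b) * (j + 1) := by
        have : (a + b) * (j + 1) = (a + b) * j + (a + b) := by ring
        rw [this]; omega
      have hp : pp a b q (2 * b - 1 + (a + b) * j) + 1 = a + b := by
        rw [e0, pp_add_mul ha hb hab hN hq]; exact hk1
      have hpa := pp_sub_a ha hb hab (by omega) hq (m := 2 * b - 1 + (a + b) * j) (by omega)
        (by omega)
      have e : 2 * b - 1 + (a + b) * j - b = b - 1 + (a + b) * j := by omega
      refine tend_odd_ns ha hb hab hN hq hm (odd1 b (by omega))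
        ((zeroth ha hb hab hN hq hA hB (2 * b - 1 + (a + b) * j - a)).2.1 (by omega) (by omega))
        (tend_normal ha hb hab hN hq hA hB _) ?_
      rw [e]; exact t0
    · have hm : b ≤ a + b - 1 + (a + b) * j := by omega
      have e1 : a + b - 1 + (a + b) * j - a = b - 1 + (a + b) * j := by omega
      have e2 : a + b - 1 + (a + b) * j - b = a - 1 + (a + b) * j := by omega
      refine tend_odd_ss ha hb hab hN hq hA hB hm odd2 rp1 rp2 ?_ ?_
      · rw [e1]; exact t0
      · rw [e2]; exact t2
  intro j
  induction j with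
  | zero =>
    have t0 : Tendsto (fun t => wsol a b (runv a b t A B) (b - 1 + (a + b) * 0) / t) (𝓝[>] 0)
        (𝓝 (rmap^[0] (A, B)).1) := by
      refine Tendsto.congr' ?_ (tendsto_const_nhds)
      filter_upwards [self_mem_nhdsWithin] with t ht
      have ht0 : (0 : ℝ) < t := ht
      rw [Nat.mul_zero, Nat.add_zero, wsol_init (by omega),
        runv_cell ha hb hab hN hq _ _ _ (by omega), pp_b_sub_one ha hb hab (by omega) hq,
        if_pos rfl]
      simp only [Function.iterate_zero, id_eq]
      field_simp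
    have t2 : Tendsto (fun t => wsol a b (runv a b t A B) (a - 1 + (a + b) * 0) / t) (𝓝[>] 0)
        (𝓝 (rmap^[0] (A, B)).2) := by
      refine Tendsto.congr' ?_ (tendsto_const_nhds)
      filter_upwards [self_mem_nhdsWithin] with t ht
      have ht0 : (0 : ℝ) < t := ht
      rw [Nat.mul_zero, Nat.add_zero, wsol_init (by omega),
        runv_cell ha hb hab hN hq _ _ _ (by omega), pp_a_sub_one ha hb hab hN hq,
        if_neg (by omega), if_neg (by omega), if_pos rfl]
      simp only [Function.iterate_zero, id_eq]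
      field_simp
    exact ⟨t0, t2, derived 0 t0 t2⟩
  | succ j ih =>
    obtain ⟨t0, t2, t3, tN, t1⟩ := ih
    obtain ⟨rp1, rp2⟩ := rmap_iter_pos hA hB j
    have hmul : (a + b) * (j + 1) = (a + b) * j + (a + b) := by ring
    have ev0 : Even (b - 1 + (a + b) * (j + 1)) := by
      refine Even.add ?_ (hNj _)
      obtain ⟨c, rfl⟩ := hb
      exact ⟨c, by omega⟩
    have ev2 : Even (a - 1 + (a + b) * (j + 1)) := by
      refine Even.add ?_ (hNj _)
      obtain ⟨c, rfl⟩ := ha
      exact ⟨c, by omega⟩
    have t0' : Tendsto (fun t => wsol a b (runv a b t A B) (b - 1 + (a + b) * (j + 1)) / t)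
        (𝓝[>] 0) (𝓝 (rmap^[j + 1] (A, B)).1) := by
      have e1 : b - 1 + (a + b) * (j + 1) - a = 2 * b - 1 + (a + b) * j := by
        rw [hmul]; omega
      have e2 : b - 1 + (a + b) * (j + 1) - b = a + b - 1 + (a + b) * j := by
        rw [hmul]; omega
      have h := tend_even ha hb hab hN hq (m := b - 1 + (a + b) * (j + 1)) (by rw [hmul]; omega) ev0
        (by rw [e1]; exact tN) (by rw [e2]; exact t1)
      convert h using 2
      rw [Function.iterate_succ_apply']
      generalize rmap^[j] (A, B) = p at *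
      unfold rmap
      simp only
      first | (field_simp; done) | (field_simp; ring)
    have t2' : Tendsto (fun t => wsol a b (runv a b t A B) (a - 1 + (a + b) * (j + 1)) / t)
        (𝓝[>] 0) (𝓝 (rmap^[j + 1] (A, B)).2) := by
      have e1 : a - 1 + (a + b) * (j + 1) - a = a + b - 1 + (a + b) * j := by
        rw [hmul]; omega
      have e2 : a - 1 + (a + b) * (j + 1) - b = 2 * a - 1 + (a + b) * j := by
        rw [hmul]; omega
      have h := tend_even ha hb hab hN hq (m := a - 1 + (a + b) * (j + 1)) (by rw [hmul]; omega) ev2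
        (by rw [e1]; exact t1) (by rw [e2]; exact t3)
      convert h using 2
      rw [Function.iterate_succ_apply']
      generalize rmap^[j] (A, B) = p at *
      unfold rmap
      simp only
      first | (field_simp; done) | (field_simp; ring)
    exact ⟨t0', t2', derived (j + 1) t0' t2'⟩

end

end Pool.Agent.Lib_helper65.RBO
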