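import Pool.Agent.Lib_helper65.RBO.Defs5
import Pool.Agent.Lib_helper83.RBO.Att

/-!
# Block P5: the ratio `1 : 3`
-/

namespace Pool.Agent.Lib_helper65.RBO

open Filter Topology
open Pool.Agent.Lib_helper65.RB

/-- statement of `series13` -/
def SeriesSt : Prop := ∃ (ε : ℝ) (c : ℕ → ℕ → ℝ), 0 < ε ∧ ε < 1 ∧
    Summable (fun p : ℕ × ℕ => |c p.1 p.2| * ε ^ (p.1 + p.2)) ∧
    ∀ s t : ℝ, |s| ≤ ε → |t| ≤ ε →
      LL 1 3 (v3 1 (2 / (2 + s)) ((2 + t) / (2 + s))) =
        ∑' p : ℕ × ℕ, c p.1 p.2 * s ^ p.1 * t ^ p.2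

theorem LL_v3_step {u v : ℝ} (hu : 0 < u) (hv : 0 < v) :
    LL 1 3 (v3 1 (2 / u) (v / u)) =
      (v / u) * LL 1 3 (v3 1 (2 / (1 + v / u)) ((1 + 1 / u + 1 / v) / (1 + v / u))) := by
  have hc : Nat.Coprime 1 3 := by decide
  have hp : ∀ n < 3, 0 < v3 1 (2 / u) (v / u) n := by
    intro n _
    unfold v3
    split_ifs <;> positivity
  have hw := wsol_isW (a := 1) (b := 3) one_pos (by norm_num) (v3 1 (2 / u) (v / u))
  have h0 : ∀ n < 3, 0 < wsol 1 3 (v3 1 (2 / u) (v / u)) n := by
    intro n hn; rw [wsol_init hn]; exact hp n hn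
  have h1 := LL_shift_even one_pos (by norm_num) hc hw h0 (N := 2) (by decide)
  have h2 : LL 1 3 (wsol 1 3 (v3 1 (2 / u) (v / u))) = LL 1 3 (v3 1 (2 / u) (v / u)) :=
    LL_congr one_pos (by norm_num) hc h0 (fun n hn => wsol_init hn)
  rw [← h2, ← h1]
  have hq : ∀ n < 3, 0 < v3 1 (2 / (1 + v / u)) ((1 + 1 / u + 1 / v) / (1 + v / u)) n := by
    intro n _
    unfold v3
    split_ifs <;> positivity
  rw [← LL_smul one_pos (by norm_num) hc hq (c := v / u) (by positivity)]
  have hpw := hw.pos (by norm_num) one_pos (by norm_num) h0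
  apply LL_congr one_pos (by norm_num) hc
  · intro n _
    exact hpw _
  have w3 : wsol 1 3 (v3 1 (2 / u) (v / u)) 3 = 2 * v / (u + v) := by
    have := hw 0
    norm_num at this
    rw [this, wsol_init (by norm_num), wsol_init (by norm_num)]
    unfold mean v3
    rw [if_neg (by decide)]
    simp
    field_simp
    ring
  intro n hn
  interval_cases n
  · show wsol 1 3 _ 2 = _
    rw [wsol_init (by norm_num)]
    simp [v3]
  · show wsol 1 3 _ 3 = _
    rw [w3]
    simp [v3]
    field_simp
  · show wsol 1 3 _ 4 = _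
    have := hw 1
    norm_num at this
    rw [this, w3, wsol_init (by norm_num)]
    unfold mean v3
    rw [if_pos (by decide)]
    simp
    field_simp
    ring

theorem LL_v3_one : LL 1 3 (v3 1 1 1) = 1 := by
  have hc : Nat.Coprime 1 3 := by decide
  have h : v3 1 1 1 = fun _ => (1 : ℝ) := by
    funext n; unfold v3; split_ifs <;> rfl
  rw [h]
  apply LL_eq one_pos (by norm_num) hc _ (fun _ _ => one_pos) tendsto_const_nhds
  intro n
  exact (mean_self _ one_pos).symm

theorem main5_of (hs : SeriesSt) : ∃ (n : ℕ) (ε : ℝ) (c : ℕ → ℕ → ℝ), 0 < ε ∧ ε < 1 ∧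
    Summable (fun p : ℕ × ℕ => |c p.1 p.2| * ε ^ (p.1 + p.2)) ∧ c 0 0 = 1 ∧
    (∀ u v : ℝ, |u - 2| ≤ ε / 8 → |v - 2| ≤ ε / 8 →
      u * ∑' p : ℕ × ℕ, c p.1 p.2 * (u - 2) ^ p.1 * (v - 2) ^ p.2 =
      v * ∑' p : ℕ × ℕ, c p.1 p.2 * (v / u - 1) ^ p.1 * (1 / u + 1 / v - 1) ^ p.2) ∧
    ∀ k l : ℕ, l + 1 = 3 * (k + 1) → ∀ x : ℕ → ℝ, (∀ i < l + 1, 0 < x i) →
      (∀ j, x (j + l + 1) = 1 / x (j + l - k) + 1 / x j) →
      (∀ i, n * (k + 1) ≤ i → |x i * x (i + (k + 1)) - 2| ≤ ε / 2) ∧
      ((fun i : Fin (l + 1) => x i) ∈ BasinM k l l ↔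
        ∀ i, n * (k + 1) ≤ i → i < (n + 1) * (k + 1) →
          x i * ∑' p : ℕ × ℕ, c p.1 p.2 * (x i * x (i + (k + 1)) - 2) ^ p.1 *
            (x (i + (k + 1)) * x (i + 2 * (k + 1)) - 2) ^ p.2 = √2) := by
  obtain ⟨ε, c, hε, hε1, hsum, hser⟩ := hs
  have hc13 : Nat.Coprime 1 3 := by decide
  obtain ⟨K0, hK0⟩ : ∃ K0 : ℕ, (3 / 5 : ℝ) ^ K0 < ε / 2 :=
    exists_pow_lt_of_lt_one (by positivity) (by norm_num)
  set n : ℕ := 8 + 3 * (2 * K0) with hn
  have hne : Even n := ⟨4 + 3 * K0, by omega⟩
  have hK : (3 / 5 : ℝ) ^ (2 * K0) ≤ ε / 2 := by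
    refine le_trans ?_ hK0.le
    exact pow_le_pow_of_le_one (by norm_num) (by norm_num) (by omega)
  have h00 : c 0 0 = 1 := by
    have h := hser 0 0 (by simpa using hε.le) (by simpa using hε.le)
    have e1 : (2 : ℝ) / (2 + 0) = 1 := by norm_num
    have e2 : ((2 : ℝ) + 0) / (2 + 0) = 1 := by norm_num
    rw [e1, e2, LL_v3_one, tsum_eq_single (0, 0)] at h
    · simpa using h.symm
    · rintro ⟨i, j⟩ hij
      simp only
      by_cases hi : i = 0
      · have hj : j ≠ 0 := by
          rintro rfl; exact hij (by rw [hi])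
        simp [hj]
      · simp [hi]
  refine ⟨n, ε, c, hε, hε1, hsum, h00, ?_, ?_⟩
  · intro u v hu hv
    have hu' := abs_le.1 hu
    have hv' := abs_le.1 hv
    have hu0 : 1 < u := by linarith
    have hv0 : 1 < v := by linarith
    have h1 : |u - 2| ≤ ε := hu.trans (by linarith)
    have h2 : |v - 2| ≤ ε := hv.trans (by linarith)
    have h3 : |v / u - 1| ≤ ε := by
      have : v / u - 1 = (v - u) / u := by field_simp
      rw [this, abs_div, abs_of_pos (by linarith : (0 : ℝ) < u), div_le_iff₀ (by linarith)]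
      rw [abs_le]
      constructor <;> nlinarith
    have h4 : |1 / u + 1 / v - 1| ≤ ε := by
      have : 1 / u + 1 / v - 1 = ((2 - u) * v + (2 - v) * u) / (2 * u * v) := by
        field_simp; ring
      rw [this, abs_div, abs_of_pos (by positivity : (0 : ℝ) < 2 * u * v),
        div_le_iff₀ (by positivity), abs_le]
      have : 1 < u * v := by nlinarith
      constructor <;> nlinarith
    have e1 := hser (u - 2) (v - 2) h1 h2
    have e2 := hser (v / u - 1) (1 / u + 1 / v - 1) h3 h4
    rw [← e1, ← e2]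
    have a1 : (2 : ℝ) + (u - 2) = u := by ring
    have a2 : (2 : ℝ) + (v - 2) = v := by ring
    have a3 : (2 : ℝ) + (v / u - 1) = 1 + v / u := by ring
    have a4 : (2 : ℝ) + (1 / u + 1 / v - 1) = 1 + 1 / u + 1 / v := by ring
    rw [a1, a2, a3, a4, LL_v3_step (by linarith) (by linarith)]
    field_simp
  · intro k l hkl x hx0 hx
    have hd : 0 < k + 1 := by omega
    have hrec : ∀ m, x (m + 3 * (k + 1)) = 1 / x (m + 2 * (k + 1)) + 1 / x m := by
      intro m
      have h := hx m
      have e1 : m + l + 1 = m + 3 * (k + 1) := by omega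
      have e2 : m + l - k = m + 2 * (k + 1) := by omega
      rw [e1, e2] at h
      exact h
    obtain ⟨hxp, hatt⟩ := Pool.Agent.Lib_helper83.RBO.att_sol hd
      (fun i hi => hx0 i (by omega)) hrec
    have hnear2 : ∀ i, n * (k + 1) ≤ i → |x i * x (i + (k + 1)) - 2| ≤ ε / 2 := fun i hi =>
      (hatt (2 * K0) i hi).trans hK
    have hnear : ∀ i, n * (k + 1) ≤ i → |x i * x (i + (k + 1)) - 2| ≤ ε := fun i hi =>
      (hnear2 i hi).trans (by linarith)
    refine ⟨hnear2, ?_⟩
    rw [mem_BasinM_iff (a' := 1) (b' := 3) (d := k + 1) (by decide) (by decide) (by norm_num) hc13 hd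
      (by ring) (by rw [hkl]; ring)]
    have key : ∀ r (hr : r < k + 1), (row (b' := 3) (d := k + 1) (by rw [hkl]; ring)
        (fun i : Fin (l + 1) => x i) r hr ∈ Red 1 3 ↔
        x (n * (k + 1) + r) * ∑' p : ℕ × ℕ, c p.1 p.2 *
          (x (n * (k + 1) + r) * x (n * (k + 1) + r + (k + 1)) - 2) ^ p.1 *
            (x (n * (k + 1) + r + (k + 1)) * x (n * (k + 1) + r + 2 * (k + 1)) - 2) ^ p.2
              = √2) := by
      intro r hr
      set z : ℕ → ℝ := fun j => x ((k + 1) * j + r) with hz
      have hzp : ∀ j, 0 < z j := fun j => hxp _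
      have hzsol : IsSol 1 3 z := by
        intro j
        have h := hrec ((k + 1) * j + r)
        have e1 : (k + 1) * j + r + 3 * (k + 1) = (k + 1) * (j + 3) + r := by ring
        have e2 : (k + 1) * j + r + 2 * (k + 1) = (k + 1) * (j + 3 - 1) + r := by
          have : j + 3 - 1 = j + 2 := by omega
          rw [this]; ring
        rw [e1, e2] at h
        exact h
      have hW := isW_flp (a := 1) (b := 3) (by decide) (by decide) (by norm_num) hzp hzsol
      have hWp : ∀ j, 0 < flp z j := fun j => flp_pos hzp j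
      have hrow : ∀ j, row (b' := 3) (d := k + 1) (by rw [hkl]; ring)
          (fun i : Fin (l + 1) => x i) r hr j = z j := by
        intro j; rfl
      have hLL : LL 1 3 (ww (row (b' := 3) (d := k + 1) (by rw [hkl]; ring)
          (fun i : Fin (l + 1) => x i) r hr)) = LL 1 3 (flp z) := by
        apply LL_congr one_pos (by norm_num) hc13
        · intro j _
          exact ww_pos (fun i => by rw [hrow]; exact hzp _) j
        · intro j hj
          unfold ww flp
          rw [dif_pos hj, hrow]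
      have hsh := LL_shift_even one_pos (by norm_num) hc13 hW (fun j _ => hWp j) hne
      have s1 := hnear (n * (k + 1) + r) (by omega)
      have s2 := hnear (n * (k + 1) + r + (k + 1)) (by omega)
      have e0 : z n = x (n * (k + 1) + r) := by
        simp only [hz]; congr 1; ring
      have e1 : z (n + 1) = x (n * (k + 1) + r + (k + 1)) := by
        simp only [hz]; congr 1; ring
      have e2 : z (n + 2) = x (n * (k + 1) + r + 2 * (k + 1)) := by
        simp only [hz]; congr 1; ring
      have e2' : n * (k + 1) + r + (k + 1) + (k + 1) = n * (k + 1) + r + 2 * (k + 1) := by ring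
      rw [e2'] at s2
      rw [← e0, ← e1] at s1
      rw [← e1, ← e2] at s2
      rw [← e0, ← e1, ← e2]
      have hval := hser _ _ s1 s2
      have a1 : (2 : ℝ) + (z n * z (n + 1) - 2) = z n * z (n + 1) := by ring
      have a2 : (2 : ℝ) + (z (n + 1) * z (n + 2) - 2) = z (n + 1) * z (n + 2) := by ring
      rw [a1, a2] at hval
      have p0 := hzp n
      have p1 := hzp (n + 1)
      have p2 := hzp (n + 2)
      have hfin : LL 1 3 (fun j => flp z (j + n)) = z n * LL 1 3
          (v3 1 (2 / (z n * z (n + 1))) (z (n + 1) * z (n + 2) / (z n * z (n + 1)))) := by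
        rw [← LL_smul one_pos (by norm_num) hc13 (c := z n) ?_ p0]
        · apply LL_congr one_pos (by norm_num) hc13 (fun j _ => hWp _)
          intro j hj
          have o1 : ¬ Even (1 + n) := by
            rw [Nat.even_add]; simp [hne]
          have o2 : Even (2 + n) := by
            rw [Nat.even_add]; simp [hne]
          interval_cases j
          · simp [flp, hne, v3]
          · unfold flp v3
            rw [if_neg o1, if_neg (by norm_num), if_pos rfl, add_comm 1 n]
            field_simp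
          · unfold flp v3
            rw [if_pos o2, if_neg (by norm_num), if_neg (by norm_num), add_comm 2 n]
            field_simp
        · intro j _
          unfold v3
          split_ifs <;> positivity
      rw [← hval, ← hfin, hsh, ← hLL]
      constructor
      · exact fun h => h.2
      · exact fun h => ⟨fun i => by rw [hrow]; exact hzp _, h⟩
    constructor
    · intro h i hi1 hi2
      obtain ⟨r, rfl⟩ : ∃ r, i = n * (k + 1) + r := ⟨i - n * (k + 1), by omega⟩
      have hr : r < k + 1 := by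
        have : (n + 1) * (k + 1) = n * (k + 1) + (k + 1) := by ring
        omega
      exact (key r hr).1 (h r hr)
    · intro h r hr
      refine (key r hr).2 (h _ (by omega) ?_)
      have : (n + 1) * (k + 1) = n * (k + 1) + (k + 1) := by ring
      omega

end Pool.Agent.Lib_helper65.RBO
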